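import Pool.Agent.MP_fa9df5_co.Gain

/-!
Interpolation between two crossing lines and between two parallel lines.
-/

set_option autoImplicit false

open MeasureTheory Set Filter Topology
open scoped ENNReal InnerProductSpace

namespace Pool.Agent.MP_fa9df5_co

lemma injOn_of_pos {τ τ' : ℝ → ℝ} {σ : ℝ} (hτ : ∀ m ∈ Ioo 0 σ, HasDerivAt τ (τ' m) m)
    (hpos : ∀ m ∈ Ioo 0 σ, 0 < τ' m) : InjOn τ (Ioo 0 σ) := by
  apply StrictMonoOn.injOn
  apply strictMonoOn_of_deriv_pos (convex_Ioo 0 σ)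
  · intro m hm
    exact (hτ m hm).continuousAt.continuousWithinAt
  · intro m hm
    rw [interior_Ioo] at hm
    rw [(hτ m hm).deriv]
    exact hpos m hm

/-- Unit direction from `x • e₁` to `y • e₂`. -/
lemma orth_dir {p e : E} (he : ‖e‖ = 1) (hp : ⟪p, e⟫_ℝ = 0) (hk : 0 < ‖p‖) :
    Orth (‖p‖⁻¹ • p) e := by
  refine ⟨?_, he, ?_⟩
  · rw [norm_smul, norm_inv, norm_norm, inv_mul_cancel₀ hk.ne']
  · rw [inner_smul_left, hp, mul_zero]

lemma cross_gain {D : Set E} (hD : IsCompact D) (hDc : Convex ℝ D) {O e₁ e₂ e : E}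
    (h1 : Orth e₁ e) (h2 : Orth e₂ e) {σ : ℝ} {u v : ℝ → ℝ} {x y : ℝ} (hx : 0 < x)
    (hk : 0 < ‖y • e₂ - x • e₁‖)
    (hu : ∀ m ∈ Ioo 0 σ, x < u m ∧ 0 < flen D e (O + u m • e₁) ∧
      HasDerivAt u (flen D e (O + u m • e₁))⁻¹ m)
    (hv : ∀ m ∈ Ioo 0 σ, 0 < v m ∧ v m < y ∧ 0 < flen D e (O + v m • e₂) ∧
      HasDerivAt v (flen D e (O + v m • e₂))⁻¹ m) :
    ∫⁻ m in Ioo 0 σ, ENNReal.ofReal (‖y • e₂ - x • e₁‖ /
      (x * (y - v m) / v m + y * (u m - x) / u m)) ≤ sigma D := by
  obtain ⟨k, hkdef⟩ : ∃ k, k = ‖y • e₂ - x • e₁‖ := ⟨_, rfl⟩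
  rw [← hkdef] at hk ⊢
  have hp : ⟪y • e₂ - x • e₁, e⟫_ℝ = 0 := by
    rw [inner_sub_left, inner_smul_left, inner_smul_left, h1.2.2, h2.2.2]
    simp
  have horth := orth_dir h1.2.1 hp (by rw [← hkdef]; exact hk)
  rw [← hkdef] at horth
  refine le_trans ?_ (ar_le_sigma (q := O + x • e₁) horth)
  have hΔ : ∀ m ∈ Ioo 0 σ, 0 < u m * y - v m * x := by
    intro m hm
    have a1 := (hu m hm).1
    have a2 := (hv m hm).1
    have a3 := (hv m hm).2.1
    have : v m * x < u m * y := by nlinarith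
    linarith
  obtain ⟨τ', hτ'⟩ : ∃ τ' : ℝ → ℝ, τ' = fun m => k *
      ((x * (y - v m) / (u m * y - v m * x)) * (v m / (u m * y - v m * x)) * (flen D e (O + u m • e₁))⁻¹ +
       (y * (u m - x) / (u m * y - v m * x)) * (u m / (u m * y - v m * x)) * (flen D e (O + v m • e₂))⁻¹) :=
    ⟨_, rfl⟩
  have hpos : ∀ m ∈ Ioo 0 σ, 0 < τ' m := by
    intro m hm
    obtain ⟨a1, a2, a3⟩ := hu m hm
    obtain ⟨b1, b2, b3, b4⟩ := hv m hm
    have hd := hΔ m hm
    have c1 : 0 < y - v m := by linarith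
    have c2 : 0 < u m - x := by linarith
    have c3 : 0 < y := by linarith
    have c4 : 0 < u m := by linarith
    rw [hτ']
    positivity
  have hder : ∀ m ∈ Ioo 0 σ, HasDerivAt (fun m => k * (v m * (u m - x) / (u m * y - v m * x))) (τ' m) m := by
    intro m hm
    obtain ⟨a1, a2, a3⟩ := hu m hm
    obtain ⟨b1, b2, b3, b4⟩ := hv m hm
    have hd := (hΔ m hm).ne'
    have d1 : HasDerivAt (fun m => v m * (u m - x)) ((flen D e (O + v m • e₂))⁻¹ * (u m - x) +
        v m * (flen D e (O + u m • e₁))⁻¹) m := b4.mul (a3.sub_const x)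
    have d2 : HasDerivAt (fun m => u m * y - v m * x) ((flen D e (O + u m • e₁))⁻¹ * y -
        (flen D e (O + v m • e₂))⁻¹ * x) m := (a3.mul_const y).sub (b4.mul_const x)
    refine ((d1.div d2 hd).const_mul k).congr_deriv ?_
    rw [hτ']
    field_simp
    ring
  refine gain hD.isClosed hder (injOn_of_pos hder hpos) ?_
  intro m hm
  obtain ⟨a1, a2, a3⟩ := hu m hm
  obtain ⟨b1, b2, b3, b4⟩ := hv m hm
  have hd := hΔ m hm
  have c1 : 0 < y - v m := by linarith
  have c2 : 0 < u m - x := by linarith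
  have c3 : 0 < y := by linarith
  have c4 : 0 < u m := by linarith
  have hlm : x * (y - v m) / (u m * y - v m * x) + y * (u m - x) / (u m * y - v m * x) = 1 := by
    rw [← add_div, div_eq_one_iff_eq hd.ne']
    ring
  have hint := interp hD hDc h1.2.1 a2 b3 (l := x * (y - v m) / (u m * y - v m * x))
    (m := y * (u m - x) / (u m * y - v m * x)) (A := v m / (u m * y - v m * x))
    (B := u m / (u m * y - v m * x)) (k := k) (by positivity) (by positivity) hlm (by positivity)
    (by positivity) hk.le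
  have e1 : x * (y - v m) / (u m * y - v m * x) / (v m / (u m * y - v m * x)) +
      y * (u m - x) / (u m * y - v m * x) / (u m / (u m * y - v m * x)) =
      x * (y - v m) / v m + y * (u m - x) / u m := by
    generalize u m * y - v m * x = Δ at hd
    field_simp
  have e2 : (x * (y - v m) / (u m * y - v m * x)) • (O + u m • e₁) +
      (y * (u m - x) / (u m * y - v m * x)) • (O + v m • e₂) =
      O + x • e₁ + (k * (v m * (u m - x) / (u m * y - v m * x))) • (k⁻¹ • (y • e₂ - x • e₁)) := by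
    have f1 : (k * (v m * (u m - x) / (u m * y - v m * x))) • (k⁻¹ • (y • e₂ - x • e₁)) =
        (v m * (u m - x) / (u m * y - v m * x)) • (y • e₂ - x • e₁) := by
      rw [smul_smul]
      congr 1
      field_simp
    have f2 : x * (y - v m) / (u m * y - v m * x) * u m = x - v m * (u m - x) / (u m * y - v m * x) * x := by
      obtain ⟨Δ, hΔ'⟩ : ∃ Δ, Δ = u m * y - v m * x := ⟨_, rfl⟩
      rw [← hΔ'] at hd ⊢
      field_simp
      rw [hΔ']
      ring
    have f3 : y * (u m - x) / (u m * y - v m * x) * v m = v m * (u m - x) / (u m * y - v m * x) * y := by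
      ring
    have f4 : O = (x * (y - v m) / (u m * y - v m * x) + y * (u m - x) / (u m * y - v m * x)) • O := by
      rw [hlm, one_smul]
    rw [f1, smul_add, smul_add, smul_smul, smul_smul, f2, f3, smul_sub, smul_smul, smul_smul, sub_smul]
    conv_rhs => rw [f4]
    rw [add_smul]
    abel
  rw [e1, e2] at hint
  rw [abs_of_pos (hpos m hm), hτ']
  exact hint

lemma par_gain {D : Set E} (hD : IsCompact D) (hDc : Convex ℝ D) {q z w e : E}
    (h1 : Orth w e) (hz : ⟪z, e⟫_ℝ = 0) {σ : ℝ} {u v : ℝ → ℝ} {x y : ℝ}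
    (hk : 0 < ‖z + (y - x) • w‖)
    (hu : ∀ m ∈ Ioo 0 σ, x < u m ∧ 0 < flen D e (q + u m • w) ∧
      HasDerivAt u (flen D e (q + u m • w))⁻¹ m)
    (hv : ∀ m ∈ Ioo 0 σ, v m < y ∧ 0 < flen D e (q + z + v m • w) ∧
      HasDerivAt v (flen D e (q + z + v m • w))⁻¹ m) :
    ∫⁻ m in Ioo 0 σ, ENNReal.ofReal (‖z + (y - x) • w‖ / ((u m - x) + (y - v m))) ≤ sigma D := by
  obtain ⟨k, hkdef⟩ : ∃ k, k = ‖z + (y - x) • w‖ := ⟨_, rfl⟩
  rw [← hkdef] at hk ⊢
  have hp : ⟪z + (y - x) • w, e⟫_ℝ = 0 := by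
    rw [inner_add_left, inner_smul_left, h1.2.2, hz]
    simp
  have horth := orth_dir h1.2.1 hp (by rw [← hkdef]; exact hk)
  rw [← hkdef] at horth
  refine le_trans ?_ (ar_le_sigma (q := q + x • w) horth)
  have hΔ : ∀ m ∈ Ioo 0 σ, 0 < (u m - x) + (y - v m) := by
    intro m hm
    have a1 := (hu m hm).1
    have a2 := (hv m hm).1
    linarith
  obtain ⟨τ', hτ'⟩ : ∃ τ' : ℝ → ℝ, τ' = fun m => k *
      (((y - v m) / ((u m - x) + (y - v m))) * (1 / ((u m - x) + (y - v m))) * (flen D e (q + u m • w))⁻¹ +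
       ((u m - x) / ((u m - x) + (y - v m))) * (1 / ((u m - x) + (y - v m))) * (flen D e (q + z + v m • w))⁻¹) :=
    ⟨_, rfl⟩
  have hpos : ∀ m ∈ Ioo 0 σ, 0 < τ' m := by
    intro m hm
    obtain ⟨a1, a2, a3⟩ := hu m hm
    obtain ⟨b1, b2, b3⟩ := hv m hm
    have hd := hΔ m hm
    have c1 : 0 < y - v m := by linarith
    have c2 : 0 < u m - x := by linarith
    rw [hτ']
    positivity
  have hder : ∀ m ∈ Ioo 0 σ, HasDerivAt (fun m => k * ((u m - x) / ((u m - x) + (y - v m)))) (τ' m) m := by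
    intro m hm
    obtain ⟨a1, a2, a3⟩ := hu m hm
    obtain ⟨b1, b2, b3⟩ := hv m hm
    have hd := (hΔ m hm).ne'
    have d1 : HasDerivAt (fun m => u m - x) ((flen D e (q + u m • w))⁻¹) m := a3.sub_const x
    have d2 : HasDerivAt (fun m => (u m - x) + (y - v m)) ((flen D e (q + u m • w))⁻¹ +
        -(flen D e (q + z + v m • w))⁻¹) m := d1.add (b3.const_sub y)
    refine ((d1.div d2 hd).const_mul k).congr_deriv ?_
    rw [hτ']
    field_simp
    ring
  refine gain hD.isClosed hder (injOn_of_pos hder hpos) ?_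
  intro m hm
  obtain ⟨a1, a2, a3⟩ := hu m hm
  obtain ⟨b1, b2, b3⟩ := hv m hm
  have hd := hΔ m hm
  have c1 : 0 < y - v m := by linarith
  have c2 : 0 < u m - x := by linarith
  have hlm : (y - v m) / ((u m - x) + (y - v m)) + (u m - x) / ((u m - x) + (y - v m)) = 1 := by
    rw [← add_div, div_eq_one_iff_eq hd.ne']
    ring
  have hint := interp hD hDc h1.2.1 a2 b2 (l := (y - v m) / ((u m - x) + (y - v m)))
    (m := (u m - x) / ((u m - x) + (y - v m))) (A := 1 / ((u m - x) + (y - v m)))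
    (B := 1 / ((u m - x) + (y - v m))) (k := k) (by positivity) (by positivity) hlm (by positivity)
    (by positivity) hk.le
  have e1 : (y - v m) / ((u m - x) + (y - v m)) / (1 / ((u m - x) + (y - v m))) +
      (u m - x) / ((u m - x) + (y - v m)) / (1 / ((u m - x) + (y - v m))) =
      (u m - x) + (y - v m) := by
    field_simp
    ring
  have e2 : ((y - v m) / ((u m - x) + (y - v m))) • (q + u m • w) +
      ((u m - x) / ((u m - x) + (y - v m))) • (q + z + v m • w) =
      q + x • w + (k * ((u m - x) / ((u m - x) + (y - v m)))) • (k⁻¹ • (z + (y - x) • w)) := by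
    have f1 : (k * ((u m - x) / ((u m - x) + (y - v m)))) • (k⁻¹ • (z + (y - x) • w)) =
        ((u m - x) / ((u m - x) + (y - v m))) • (z + (y - x) • w) := by
      rw [smul_smul]
      congr 1
      field_simp
    have f2 : (y - v m) / ((u m - x) + (y - v m)) * u m + (u m - x) / ((u m - x) + (y - v m)) * v m =
        x + (u m - x) / ((u m - x) + (y - v m)) * (y - x) := by
      field_simp
      ring
    have f4 : q = ((y - v m) / ((u m - x) + (y - v m)) + (u m - x) / ((u m - x) + (y - v m))) • q := by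
      rw [hlm, one_smul]
    rw [f1]
    have f5 : ((y - v m) / ((u m - x) + (y - v m))) • (q + u m • w) +
      ((u m - x) / ((u m - x) + (y - v m))) • (q + z + v m • w) =
      ((y - v m) / ((u m - x) + (y - v m)) + (u m - x) / ((u m - x) + (y - v m))) • q +
      ((u m - x) / ((u m - x) + (y - v m))) • z +
      ((y - v m) / ((u m - x) + (y - v m)) * u m + (u m - x) / ((u m - x) + (y - v m)) * v m) • w := by
      simp only [smul_add, add_smul, smul_smul]
      abel
    rw [f5, hlm, one_smul, f2]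
    simp only [smul_add, add_smul, smul_smul]
    abel
  rw [e1, e2] at hint
  rw [abs_of_pos (hpos m hm), hτ']
  exact hint

end Pool.Agent.MP_fa9df5_co
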