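import Mathlib

/-!
The maximal area of a plane section of a subset of Euclidean three-space.
-/

set_option autoImplicit false

open MeasureTheory
open scoped ENNReal

namespace Pool.Agent.MP_fa9df5_co

/-- The maximal area of a plane section of `K`. The planes of three-space are exactly the images
of the affine isometric embeddings `φ` of the Euclidean plane, and the area of the section of `K`
by the image of `φ` is the two-dimensional Lebesgue measure of `φ ⁻¹' K`. -/
noncomputable def sigma (K : Set (EuclideanSpace ℝ (Fin 3))) : ℝ≥0∞ :=
  ⨆ φ : EuclideanSpace ℝ (Fin 2) →ᵃⁱ[ℝ] EuclideanSpace ℝ (Fin 3), volume (φ ⁻¹' K)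

end Pool.Agent.MP_fa9df5_co
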