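import Mathlib

/-!
A differentiable inverse of the distribution function of a positive density on an interval.
-/

set_option autoImplicit false

open MeasureTheory Set Filter Topology

namespace Pool.Agent.MP_fa9df5_co

lemma quantile {f : ℝ → ℝ} {a b σ : ℝ} (hab : a < b) (hc : ContinuousOn f (Ioo a b))
    (hpos : ∀ x ∈ Ioo a b, 0 < f x) (hint : IntegrableOn f (Ioo a b))
    (hσ : ∫ x in Ioo a b, f x = σ) :
    ∃ u : ℝ → ℝ, ∀ m ∈ Ioo 0 σ, u m ∈ Ioo a b ∧ HasDerivAt u (f (u m))⁻¹ m := by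
  have hii : ∀ x ∈ Icc a b, ∀ y ∈ Icc a b, x ≤ y → IntervalIntegrable f volume x y := by
    intro x hx y hy hxy
    rw [intervalIntegrable_iff_integrableOn_Ioo_of_le hxy]
    exact hint.mono_set (Ioo_subset_Ioo hx.1 hy.2)
  obtain ⟨G, hG⟩ : ∃ G : ℝ → ℝ, G = fun x => ∫ t in a..x, f t := ⟨_, rfl⟩
  have hab' : IntervalIntegrable f volume a b := hii a ⟨le_rfl, hab.le⟩ b ⟨hab.le, le_rfl⟩ hab.le
  have hGa : G a = 0 := by rw [hG]; simp
  have hGb : G b = σ := by
    rw [hG, ← hσ]
    show ∫ t in a..b, f t = _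
    rw [intervalIntegral.integral_of_le hab.le, integral_Ioc_eq_integral_Ioo]
  have hGc : ContinuousOn G (Icc a b) := by
    rw [hG]
    have h1 : IntegrableOn f (uIcc a b) := by
      rw [uIcc_of_le hab.le, integrableOn_Icc_iff_integrableOn_Ioo]
      exact hint
    have := intervalIntegral.continuousOn_primitive_interval h1
    rwa [uIcc_of_le hab.le] at this
  have hGm : StrictMonoOn G (Icc a b) := by
    intro x hx y hy hxy
    have h1 : G y - G x = ∫ t in x..y, f t := by
      rw [hG]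
      exact intervalIntegral.integral_interval_sub_left (hii a ⟨le_rfl, hab.le⟩ y hy hy.1)
        (hii a ⟨le_rfl, hab.le⟩ x hx hx.1)
    have h2 := intervalIntegral.intervalIntegral_pos_of_pos_on (hii x hx y hy hxy.le)
      (fun t ht => hpos t ⟨lt_of_le_of_lt hx.1 ht.1, lt_of_lt_of_le ht.2 hy.2⟩) hxy
    linarith
  have hGd : ∀ x ∈ Ioo a b, HasDerivAt G (f x) x := by
    intro x hx
    rw [hG]
    exact intervalIntegral.integral_hasDerivAt_right
      (hii a ⟨le_rfl, hab.le⟩ x (Ioo_subset_Icc_self hx) hx.1.le)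
      (hc.stronglyMeasurableAtFilter isOpen_Ioo x hx) (hc.continuousAt (Ioo_mem_nhds hx.1 hx.2))
  have hex : ∀ m ∈ Ioo 0 σ, ∃ x ∈ Ioo a b, G x = m := by
    intro m hm
    have := intermediate_value_Ioo hab.le hGc
    rw [hGa, hGb] at this
    obtain ⟨x, hx, h⟩ := this hm
    exact ⟨x, hx, h⟩
  choose! u hu hGu using hex
  refine ⟨u, fun m hm => ⟨hu m hm, ?_⟩⟩
  have hcont : ContinuousAt u m := by
    rw [Metric.continuousAt_iff]
    intro ε hε
    have hum := hu m hm
    obtain ⟨d, hd0, hdε, hd1, hd2⟩ : ∃ d > 0, d ≤ ε ∧ a ≤ u m - d ∧ u m + d ≤ b := by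
      refine ⟨min ε (min (u m - a) (b - u m)), ?_, min_le_left _ _, ?_, ?_⟩
      · have h1 : 0 < u m - a := by linarith [hum.1]
        have h2 : 0 < b - u m := by linarith [hum.2]
        positivity
      · have : min ε (min (u m - a) (b - u m)) ≤ u m - a := (min_le_right _ _).trans (min_le_left _ _)
        linarith
      · have : min ε (min (u m - a) (b - u m)) ≤ b - u m := (min_le_right _ _).trans (min_le_right _ _)
        linarith
    have hI1 : u m - d ∈ Icc a b := ⟨hd1, by linarith [hum.2]⟩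
    have hI2 : u m + d ∈ Icc a b := ⟨by linarith [hum.1], hd2⟩
    have h1 : G (u m - d) < m := by
      have := hGm hI1 (Ioo_subset_Icc_self hum) (by linarith)
      rwa [hGu m hm] at this
    have h2 : m < G (u m + d) := by
      have := hGm (Ioo_subset_Icc_self hum) hI2 (by linarith)
      rwa [hGu m hm] at this
    have hnh : Ioo (max 0 (G (u m - d))) (min σ (G (u m + d))) ∈ 𝓝 m :=
      Ioo_mem_nhds (max_lt hm.1 h1) (lt_min hm.2 h2)
    obtain ⟨δ, hδ, hball⟩ := Metric.mem_nhds_iff.1 hnh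
    refine ⟨δ, hδ, fun {x} hx => ?_⟩
    have hx2 := hball (Metric.mem_ball.2 hx)
    have hxm : x ∈ Ioo 0 σ := ⟨lt_of_le_of_lt (le_max_left _ _) hx2.1,
      lt_of_lt_of_le hx2.2 (min_le_left _ _)⟩
    have hxu := Ioo_subset_Icc_self (hu x hxm)
    have h3 : G (u m - d) < G (u x) := by
      rw [hGu x hxm]
      exact lt_of_le_of_lt (le_max_right _ _) hx2.1
    have h4 : G (u x) < G (u m + d) := by
      rw [hGu x hxm]
      exact lt_of_lt_of_le hx2.2 (min_le_right _ _)
    have h5 := (hGm.lt_iff_lt hI1 hxu).1 h3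
    have h6 := (hGm.lt_iff_lt hxu hI2).1 h4
    rw [Real.dist_eq, abs_lt]
    constructor <;> linarith
  refine HasDerivAt.of_local_left_inverse hcont (hGd (u m) (hu m hm)) (hpos _ (hu m hm)).ne' ?_
  filter_upwards [Ioo_mem_nhds hm.1 hm.2] with x hx
  exact hGu x hx

end Pool.Agent.MP_fa9df5_co
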