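import Pool.Agent.MP_fa9df5_co.Frames
import Pool.Agent.MP_fa9df5_co.Quantile

/-!
Fibre lengths in a fixed direction, their concavity, and the area of a section as an integral
of fibre lengths.
-/

set_option autoImplicit false

open MeasureTheory Set Filter Topology
open scoped ENNReal InnerProductSpace

namespace Pool.Agent.MP_fa9df5_co

/-- The fibre of `D` through `x` in direction `e`. -/
def fib (D : Set E) (e x : E) : Set ℝ := {t : ℝ | x + t • e ∈ D}

/-- Fibre length. -/
noncomputable def flen (D : Set E) (e x : E) : ℝ := (volume (fib D e x)).toReal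

/-- The coordinate set of a section. -/
def sec (D : Set E) (q u v : E) : Set (ℝ × ℝ) := {p : ℝ × ℝ | q + p.1 • u + p.2 • v ∈ D}

lemma sec_closed {D : Set E} (hD : IsClosed D) (q u v : E) : IsClosed (sec D q u v) :=
  hD.preimage (by fun_prop)

lemma sec_convex {D : Set E} (hD : Convex ℝ D) (q u v : E) : Convex ℝ (sec D q u v) := by
  intro p hp p' hp' a b ha hb hab
  show q + (a • p + b • p').1 • u + (a • p + b • p').2 • v ∈ D
  have h := hD hp hp' ha hb hab
  have e : q + (a • p + b • p').1 • u + (a • p + b • p').2 • v =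
      a • (q + p.1 • u + p.2 • v) + b • (q + p'.1 • u + p'.2 • v) := by
    have : q = (a + b) • q := by rw [hab, one_smul]
    conv_lhs => rw [this]
    simp only [Prod.fst_add, Prod.snd_add, Prod.smul_fst, Prod.smul_snd, smul_eq_mul, add_smul,
      smul_add, mul_smul]
    abel
  rw [e]
  exact h

lemma coord_le {u v : E} (h : Orth u v) (s t : ℝ) : |s| ≤ ‖s • u + t • v‖ ∧ |t| ≤ ‖s • u + t • v‖ := by
  have h1 := orth_norm_sq h s t
  constructor
  · apply abs_le_of_sq_le_sq _ (norm_nonneg _)
    rw [h1]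
    nlinarith
  · apply abs_le_of_sq_le_sq _ (norm_nonneg _)
    rw [h1]
    nlinarith

lemma sec_compact {D : Set E} (hD : IsCompact D) {q u v : E} (h : Orth u v) :
    IsCompact (sec D q u v) := by
  obtain ⟨R, hR⟩ := hD.isBounded.subset_closedBall q
  refine Metric.isCompact_of_isClosed_isBounded (sec_closed hD.isClosed q u v) ?_
  refine (Metric.isBounded_closedBall (x := (0 : ℝ × ℝ)) (r := R)).subset ?_
  intro p hp
  have h1 := hR hp
  rw [mem_closedBall_iff_norm] at h1
  have h2 : q + p.1 • u + p.2 • v - q = p.1 • u + p.2 • v := by abel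
  rw [h2] at h1
  obtain ⟨c1, c2⟩ := coord_le h p.1 p.2
  rw [mem_closedBall_zero_iff, Prod.norm_def, Real.norm_eq_abs, Real.norm_eq_abs]
  exact max_le (c1.trans h1) (c2.trans h1)

lemma fib_compact {D : Set E} (hD : IsCompact D) {e : E} (he : ‖e‖ = 1) (x : E) :
    IsCompact (fib D e x) := by
  obtain ⟨R, hR⟩ := hD.isBounded.subset_closedBall x
  have hcl : IsClosed (fib D e x) := hD.isClosed.preimage (by fun_prop)
  refine Metric.isCompact_of_isClosed_isBounded hcl ?_
  refine (Metric.isBounded_closedBall (x := (0 : ℝ)) (r := R)).subset ?_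
  intro t ht
  have h1 := hR ht
  rw [mem_closedBall_iff_norm] at h1
  have h2 : x + t • e - x = t • e := by abel
  rw [h2, norm_smul, he, mul_one] at h1
  rw [mem_closedBall_zero_iff]
  exact h1

lemma fib_convex {D : Set E} (hD : Convex ℝ D) (e x : E) : Convex ℝ (fib D e x) := by
  intro t ht t' ht' a b ha hb hab
  show x + (a • t + b • t') • e ∈ D
  have h := hD ht ht' ha hb hab
  have e1 : x + (a • t + b • t') • e = a • (x + t • e) + b • (x + t' • e) := by
    have : x = (a + b) • x := by rw [hab, one_smul]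
    conv_lhs => rw [this]
    simp only [smul_eq_mul, add_smul, smul_add, mul_smul]
    abel
  rw [e1]
  exact h

lemma fib_Icc {D : Set E} (hD : IsCompact D) (hDc : Convex ℝ D) {e : E} (he : ‖e‖ = 1) {x : E}
    (hx : (fib D e x).Nonempty) : ∃ c d, c ≤ d ∧ fib D e x = Icc c d := by
  have h1 := eq_Icc_of_connected_compact ⟨hx, (fib_convex hDc e x).isPreconnected⟩ (fib_compact hD he x)
  refine ⟨_, _, ?_, h1⟩
  rw [h1] at hx
  exact nonempty_Icc.1 hx

lemma flen_concave {D : Set E} (hD : IsCompact D) (hDc : Convex ℝ D) {e : E} (he : ‖e‖ = 1) {x y : E}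
    (hx : (fib D e x).Nonempty) (hy : (fib D e y).Nonempty) {a b : ℝ} (ha : 0 ≤ a) (hb : 0 ≤ b)
    (hab : a + b = 1) : (fib D e (a • x + b • y)).Nonempty ∧
      a * flen D e x + b * flen D e y ≤ flen D e (a • x + b • y) := by
  obtain ⟨c, d, hcd, h1⟩ := fib_Icc hD hDc he hx
  obtain ⟨c', d', hcd', h2⟩ := fib_Icc hD hDc he hy
  have key : ∀ t ∈ fib D e x, ∀ t' ∈ fib D e y, a * t + b * t' ∈ fib D e (a • x + b • y) := by
    intro t ht t' ht'
    have h := hDc ht ht' ha hb hab
    show a • x + b • y + (a * t + b * t') • e ∈ D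
    have e1 : a • x + b • y + (a * t + b * t') • e = a • (x + t • e) + b • (y + t' • e) := by
      simp only [add_smul, smul_add, mul_smul]
      abel
    rw [e1]
    exact h
  have k1 := key c (h1 ▸ ⟨le_rfl, hcd⟩) c' (h2 ▸ ⟨le_rfl, hcd'⟩)
  have k2 := key d (h1 ▸ ⟨hcd, le_rfl⟩) d' (h2 ▸ ⟨hcd', le_rfl⟩)
  have hle : a * c + b * c' ≤ a * d + b * d' := by
    have := mul_le_mul_of_nonneg_left hcd ha
    have := mul_le_mul_of_nonneg_left hcd' hb
    linarith
  have hsub : Icc (a * c + b * c') (a * d + b * d') ⊆ fib D e (a • x + b • y) :=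
    (fib_convex hDc e _).ordConnected.out k1 k2
  refine ⟨⟨_, k1⟩, ?_⟩
  unfold flen
  have h3 := measure_mono hsub (μ := volume)
  have h4 := ENNReal.toReal_mono (fib_compact hD he _).measure_lt_top.ne h3
  rw [h1, h2, Real.volume_Icc, Real.volume_Icc, ENNReal.toReal_ofReal (by linarith),
    ENNReal.toReal_ofReal (by linarith)]
  rw [Real.volume_Icc, ENNReal.toReal_ofReal (by linarith)] at h4
  linarith

lemma ar_eq_lintegral {D : Set E} (hD : IsClosed D) (q w e : E) :
    ar D q w e = ∫⁻ s : ℝ, volume (fib D e (q + s • w)) := by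
  show volume (sec D q w e) = _
  rw [Measure.volume_eq_prod, Measure.prod_apply (sec_closed hD q w e).measurableSet]
  rfl

lemma fib_meas {D : Set E} (hD : IsClosed D) (q w e : E) :
    Measurable (fun s : ℝ => volume (fib D e (q + s • w))) :=
  measurable_measure_prodMk_left (ν := (volume : Measure ℝ)) (sec_closed hD q w e).measurableSet

/-- Chord data of a section. -/
lemma line_data {D : Set E} (hD : IsCompact D) (hDc : Convex ℝ D) {q w e : E} (h : Orth w e)
    (hpos : 0 < ar D q w e) :
    ∃ a b : ℝ, a < b ∧ (∀ s : ℝ, (fib D e (q + s • w)).Nonempty ↔ s ∈ Icc a b) ∧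
      ∃ u : ℝ → ℝ, ∀ m ∈ Ioo 0 (ar D q w e).toReal, u m ∈ Ioo a b ∧ 0 < flen D e (q + u m • w) ∧
        HasDerivAt u (flen D e (q + u m • w))⁻¹ m := by
  have he : ‖e‖ = 1 := h.2.1
  obtain ⟨I, hI⟩ : ∃ I : Set ℝ, I = {s | (fib D e (q + s • w)).Nonempty} := ⟨_, rfl⟩
  have hI1 : I = Prod.fst '' sec D q w e := by
    rw [hI]
    ext s
    constructor
    · rintro ⟨t, ht⟩
      exact ⟨(s, t), ht, rfl⟩
    · rintro ⟨⟨s', t⟩, ht, rfl⟩
      exact ⟨t, ht⟩
  have hIc : IsCompact I := hI1 ▸ (sec_compact hD h).image continuous_fst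
  have hIconv : Convex ℝ I := by
    rw [hI1]
    exact (sec_convex hDc q w e).linear_image (LinearMap.fst ℝ ℝ ℝ)
  have hIne : I.Nonempty := by
    rw [hI1]
    apply Set.Nonempty.image
    by_contra hcon
    rw [not_nonempty_iff_eq_empty] at hcon
    have : ar D q w e = 0 := by
      show volume (sec D q w e) = 0
      rw [hcon, measure_empty]
    exact hpos.ne' this
  have hIcc := eq_Icc_of_connected_compact ⟨hIne, hIconv.isPreconnected⟩ hIc
  obtain ⟨a, ha⟩ : ∃ a, a = sInf I := ⟨_, rfl⟩
  obtain ⟨b, hb⟩ : ∃ b, b = sSup I := ⟨_, rfl⟩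
  rw [← ha, ← hb] at hIcc
  have hab : a ≤ b := by
    rw [hIcc] at hIne
    exact nonempty_Icc.1 hIne
  have hmem : ∀ s : ℝ, (fib D e (q + s • w)).Nonempty ↔ s ∈ Icc a b := by
    intro s
    rw [← hIcc, hI]
    exact Iff.rfl
  have hzero : ∀ s : ℝ, s ∉ Icc a b → volume (fib D e (q + s • w)) = 0 := by
    intro s hs
    have : fib D e (q + s • w) = ∅ := by
      rw [← not_nonempty_iff_eq_empty]
      exact fun hn => hs ((hmem s).1 hn)
    rw [this, measure_empty]
  have hfin : ∀ s : ℝ, volume (fib D e (q + s • w)) ≠ ⊤ := fun s => (fib_compact hD he _).measure_lt_top.ne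
  have harfin : ar D q w e ≠ ⊤ := (sec_compact hD h).measure_lt_top.ne
  have hint1 : ar D q w e = ∫⁻ s in Icc a b, volume (fib D e (q + s • w)) := by
    rw [ar_eq_lintegral hD.isClosed, ← lintegral_indicator measurableSet_Icc]
    congr 1
    ext s
    by_cases hs : s ∈ Icc a b
    · rw [indicator_of_mem hs]
    · rw [indicator_of_notMem hs, hzero s hs]
  have hint2 : ar D q w e = ∫⁻ s in Ioo a b, volume (fib D e (q + s • w)) := by
    rw [hint1]
    exact setLIntegral_congr Ioo_ae_eq_Icc.symm
  have hlt : a < b := by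
    rcases hab.lt_or_eq with h1 | h1
    · exact h1
    · exfalso
      rw [hint2, h1] at hpos
      simp at hpos
  have hcomb : ∀ s s' x y : ℝ, x + y = 1 → x • (q + s • w) + y • (q + s' • w) = q + (x * s + y * s') • w := by
    intro s s' x y hxy
    have : q = (x + y) • q := by rw [hxy, one_smul]
    conv_rhs => rw [this]
    simp only [add_smul, smul_add, mul_smul]
    abel
  have hconc : ConcaveOn ℝ (Icc a b) (fun s => flen D e (q + s • w)) := by
    refine ⟨convex_Icc a b, ?_⟩
    intro s hs s' hs' x y hx hy hxy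
    have := (flen_concave hD hDc he ((hmem s).2 hs) ((hmem s').2 hs') hx hy hxy).2
    rw [hcomb s s' x y hxy] at this
    exact this
  have hcont : ContinuousOn (fun s => flen D e (q + s • w)) (Ioo a b) :=
    (hconc.subset Ioo_subset_Icc_self (convex_Ioo a b)).continuousOn isOpen_Ioo
  obtain ⟨s₀, hs₀, hs₀pos⟩ : ∃ s₀ ∈ Icc a b, 0 < flen D e (q + s₀ • w) := by
    by_contra hcon
    push Not at hcon
    apply hpos.ne'
    rw [hint1]
    rw [setLIntegral_congr_fun (g := fun _ => 0) measurableSet_Icc]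
    · simp
    · intro s hs
      have h1 := hcon s hs
      unfold flen at h1
      have h2 : (volume (fib D e (q + s • w))).toReal = 0 := le_antisymm h1 ENNReal.toReal_nonneg
      exact (ENNReal.toReal_eq_zero_iff _).1 h2 |>.resolve_right (hfin s)
  have hnn : ∀ x, 0 ≤ flen D e x := fun x => ENNReal.toReal_nonneg
  have hposI : ∀ s ∈ Ioo a b, 0 < flen D e (q + s • w) := by
    intro s hs
    rcases lt_trichotomy s s₀ with h1 | h1 | h1
    · -- between a and s₀
      obtain ⟨x, y, hx, hy, hxy, hxy2⟩ : ∃ x y : ℝ, 0 ≤ x ∧ 0 < y ∧ x + y = 1 ∧ x * a + y * s₀ = s := by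
        have h2 : 0 < s₀ - a := by linarith [hs.1]
        refine ⟨(s₀ - s) / (s₀ - a), (s - a) / (s₀ - a), ?_, ?_, ?_, ?_⟩
        · apply div_nonneg <;> linarith
        · apply div_pos <;> linarith [hs.1]
        · field_simp
          ring
        · field_simp
          ring
      have := hconc.2 ⟨le_rfl, hab⟩ hs₀ hx hy.le hxy
      simp only [smul_eq_mul] at this
      rw [hxy2] at this
      have h3 : 0 < y * flen D e (q + s₀ • w) := by positivity
      have h4 : 0 ≤ x * flen D e (q + a • w) := mul_nonneg hx (hnn _)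
      linarith
    · rw [h1]
      exact hs₀pos
    · obtain ⟨x, y, hx, hy, hxy, hxy2⟩ : ∃ x y : ℝ, 0 ≤ x ∧ 0 < y ∧ x + y = 1 ∧ x * b + y * s₀ = s := by
        have h2 : 0 < b - s₀ := by linarith [hs.2]
        refine ⟨(s - s₀) / (b - s₀), (b - s) / (b - s₀), ?_, ?_, ?_, ?_⟩
        · apply div_nonneg <;> linarith
        · apply div_pos <;> linarith [hs.2]
        · field_simp
          ring
        · field_simp
          ring
      have := hconc.2 ⟨hab, le_rfl⟩ hs₀ hx hy.le hxy
      simp only [smul_eq_mul] at this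
      rw [hxy2] at this
      have h3 : 0 < y * flen D e (q + s₀ • w) := by positivity
      have h4 : 0 ≤ x * flen D e (q + b • w) := mul_nonneg hx (hnn _)
      linarith
  have hinteg : IntegrableOn (fun s => flen D e (q + s • w)) (Ioo a b) := by
    apply integrable_toReal_of_lintegral_ne_top (fib_meas hD.isClosed q w e).aemeasurable
    rw [← hint2]
    exact harfin
  have hval : ∫ s in Ioo a b, flen D e (q + s • w) = (ar D q w e).toReal := by
    rw [hint2]
    exact integral_toReal (fib_meas hD.isClosed q w e).aemeasurable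
      (Eventually.of_forall (fun s => (hfin s).lt_top))
  obtain ⟨u, hu⟩ := quantile hlt hcont hposI hinteg hval
  exact ⟨a, b, hlt, hmem, u, fun m hm => ⟨(hu m hm).1, hposI _ (hu m hm).1, (hu m hm).2⟩⟩

end Pool.Agent.MP_fa9df5_co
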