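import Pool.Agent.MP_fa9df5_co.Def

/-!
Plane sections through isometric parametrisations, and through orthonormal frames.
-/

set_option autoImplicit false

open MeasureTheory Set Filter Topology
open scoped ENNReal InnerProductSpace

namespace Pool.Agent.MP_fa9df5_co

/-- Three dimensional Euclidean space. -/
abbrev E := EuclideanSpace ℝ (Fin 3)

/-- The Euclidean plane. -/
abbrev P := EuclideanSpace ℝ (Fin 2)

/-- Area of the section of `K` by the plane `q + ℝ u + ℝ v`. -/
noncomputable def ar (K : Set E) (q u v : E) : ℝ≥0∞ := volume {p : ℝ × ℝ | q + p.1 • u + p.2 • v ∈ K}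

/-- Orthonormal pair. -/
def Orth (u v : E) : Prop := ‖u‖ = 1 ∧ ‖v‖ = 1 ∧ ⟪u, v⟫_ℝ = 0

lemma volume_P (S : Set (ℝ × ℝ)) : volume {y : P | (y 0, y 1) ∈ S} = volume S := by
  have h1 := (EuclideanSpace.volume_preserving_symm_measurableEquiv_toLp (Fin 2)).measure_preimage_equiv
    ((MeasurableEquiv.finTwoArrow (α := ℝ)) ⁻¹' S)
  have h2 := (volume_preserving_finTwoArrow ℝ).measure_preimage_equiv S
  rw [← h2, ← h1]
  rfl

lemma orth_norm_sq {u v : E} (h : Orth u v) (s t : ℝ) : ‖s • u + t • v‖^2 = s^2 + t^2 := by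
  obtain ⟨hu, hv, huv⟩ := h
  rw [norm_add_sq_real, norm_smul, norm_smul, hu, hv, inner_smul_left, inner_smul_right, huv]
  simp

/-- The isometric parametrisation attached to a frame. -/
lemma frame_iso {q u v : E} (h : Orth u v) :
    ∃ φ : P →ᵃⁱ[ℝ] E, (∀ y, φ y = q + y 0 • u + y 1 • v) ∧
      ∀ K, volume (φ ⁻¹' K) = ar K q u v := by
  let L : P →ₗ[ℝ] E :=
    { toFun := fun y => y 0 • u + y 1 • v
      map_add' := by
        intro x y
        simp only [PiLp.add_apply, add_smul]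
        abel
      map_smul' := by
        intro c x
        simp only [PiLp.smul_apply, smul_eq_mul, RingHom.id_apply, smul_add, smul_smul] }
  have hL : ∀ y, ‖L y‖ = ‖y‖ := by
    intro y
    have h1 : ‖L y‖^2 = ‖y‖^2 := by
      show ‖y 0 • u + y 1 • v‖^2 = ‖y‖^2
      rw [orth_norm_sq h, EuclideanSpace.norm_sq_eq]
      simp [Fin.sum_univ_two]
    exact (pow_left_inj₀ (norm_nonneg _) (norm_nonneg _) two_ne_zero).1 h1
  let φ : P →ᵃⁱ[ℝ] E :=
    { toFun := fun y => q + y 0 • u + y 1 • v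
      linear := L
      map_vadd' := by
        intro p w
        show q + (w + p) 0 • u + (w + p) 1 • v = (w 0 • u + w 1 • v) + (q + p 0 • u + p 1 • v)
        simp only [PiLp.add_apply, add_smul]
        abel
      norm_map := hL }
  refine ⟨φ, fun y => rfl, fun K => ?_⟩
  exact volume_P {p : ℝ × ℝ | q + p.1 • u + p.2 • v ∈ K}

lemma ar_le_sigma {K : Set E} {q u v : E} (h : Orth u v) : ar K q u v ≤ sigma K := by
  obtain ⟨φ, -, hφ⟩ := frame_iso (q := q) h
  rw [← hφ K]
  exact le_iSup (fun φ : P →ᵃⁱ[ℝ] E => volume (φ ⁻¹' K)) φ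

lemma iso_frame (φ : P →ᵃⁱ[ℝ] E) (y₀ : P) (b : OrthonormalBasis (Fin 2) ℝ P) (K : Set E) :
    volume (φ ⁻¹' K) = ar K (φ y₀) (φ.linearIsometry (b 0)) (φ.linearIsometry (b 1)) := by
  have h1 : volume (φ ⁻¹' K) = volume ((fun y : P => b.repr.symm y + y₀) ⁻¹' (φ ⁻¹' K)) := by
    have e1 := (measurePreserving_add_right (volume : Measure P) y₀).measure_preimage_emb
      (MeasurableEquiv.addRight y₀).measurableEmbedding (φ ⁻¹' K)
    have e2 := (b.repr.symm.measurePreserving).measure_preimage_emb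
      (b.repr.symm.toHomeomorph.measurableEmbedding) ((fun x => x + y₀) ⁻¹' (φ ⁻¹' K))
    rw [← e1, ← e2]
    rfl
  rw [h1]
  refine Eq.trans ?_ (volume_P {p : ℝ × ℝ | φ y₀ + p.1 • φ.linearIsometry (b 0) +
    p.2 • φ.linearIsometry (b 1) ∈ K})
  congr 1
  ext y
  simp only [mem_preimage, Set.mem_ofPred_eq]
  have h2 : φ (b.repr.symm y + y₀) = φ y₀ + y 0 • φ.linearIsometry (b 0) + y 1 • φ.linearIsometry (b 1) := by
    have h3 : φ (b.repr.symm y + y₀) = φ.linearIsometry (b.repr.symm y) + φ y₀ := φ.map_vadd y₀ _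
    rw [h3]
    have h4 : b.repr.symm y = y 0 • b 0 + y 1 • b 1 := by
      have := b.sum_repr_symm y
      rw [← this, Fin.sum_univ_two]
    rw [h4, map_add, map_smul, map_smul]
    abel
  rw [h2]

end Pool.Agent.MP_fa9df5_co
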