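import Pool.Agent.MP_fa9df5_co.Fibres

/-!
The area gain obtained by interpolating between two sections along a third plane.
-/

set_option autoImplicit false

open MeasureTheory Set Filter Topology
open scoped ENNReal InnerProductSpace

namespace Pool.Agent.MP_fa9df5_co

lemma amgm3 {x y z : ℝ} (hx : 0 < x) (hy : 0 < y) (hz : 0 < z) (h : x * y * z = 1) :
    3 ≤ x + y + z := by
  by_contra hcon
  push Not at hcon
  have h1 : x * y * z * 27 ≤ (x + y + z)^3 := by
    nlinarith [mul_nonneg hx.le (sq_nonneg (y - z)), mul_nonneg hy.le (sq_nonneg (x - z)),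
      mul_nonneg hz.le (sq_nonneg (x - y)), mul_nonneg hx.le (sq_nonneg (x - y)),
      mul_nonneg hx.le (sq_nonneg (x - z)), mul_nonneg hy.le (sq_nonneg (x - y)),
      mul_nonneg hy.le (sq_nonneg (y - z)), mul_nonneg hz.le (sq_nonneg (x - z)),
      mul_nonneg hz.le (sq_nonneg (y - z))]
  have h2 : (x + y + z)^3 < 3^3 := pow_lt_pow_left₀ hcon (by positivity) (by norm_num)
  rw [h] at h1
  linarith

lemma holder3 {l m A B f g : ℝ} (hl : 0 ≤ l) (hm : 0 ≤ m) (hlm : l + m = 1) (hA : 0 < A)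
    (hB : 0 < B) (hf : 0 < f) (hg : 0 < g) :
    1 ≤ (l * f + m * g) * (l * A / f + m * B / g) * (l / A + m / B) := by
  have e : (l * f + m * g) * (l * A / f + m * B / g) * (l / A + m / B) =
      l^3 + l^2 * m * (A / B + (f / g) * (B / A) + g / f) +
      l * m^2 * (f / g + (g / f) * (A / B) + B / A) + m^3 := by
    field_simp
    ring
  rw [e]
  have h1 : 3 ≤ A / B + (f / g) * (B / A) + g / f := by
    apply amgm3 (by positivity) (by positivity) (by positivity)
    field_simp
  have h2 : 3 ≤ f / g + (g / f) * (A / B) + B / A := by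
    apply amgm3 (by positivity) (by positivity) (by positivity)
    field_simp
  have h3 : (1:ℝ) = l^3 + l^2 * m * 3 + l * m^2 * 3 + m^3 := by
    have : (l + m)^3 = 1 := by rw [hlm]; norm_num
    linarith [this, show (l + m)^3 = l^3 + l^2 * m * 3 + l * m^2 * 3 + m^3 by ring]
  have h4 : l^2 * m * 3 ≤ l^2 * m * (A / B + (f / g) * (B / A) + g / f) :=
    mul_le_mul_of_nonneg_left h1 (by positivity)
  have h5 : l * m^2 * 3 ≤ l * m^2 * (f / g + (g / f) * (A / B) + B / A) :=
    mul_le_mul_of_nonneg_left h2 (by positivity)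
  linarith

lemma gain {D : Set E} (hD : IsClosed D) {X w e : E} {σ : ℝ} {τ τ' Z : ℝ → ℝ}
    (hτ : ∀ m ∈ Ioo 0 σ, HasDerivAt τ (τ' m) m) (hinj : InjOn τ (Ioo 0 σ))
    (hZ : ∀ m ∈ Ioo 0 σ, Z m ≤ |τ' m| * flen D e (X + τ m • w)) :
    ∫⁻ m in Ioo 0 σ, ENNReal.ofReal (Z m) ≤ ar D X w e := by
  rw [ar_eq_lintegral hD]
  calc ∫⁻ m in Ioo 0 σ, ENNReal.ofReal (Z m)
      ≤ ∫⁻ m in Ioo 0 σ, ENNReal.ofReal |τ' m| * volume (fib D e (X + τ m • w)) := by
        apply setLIntegral_mono' measurableSet_Ioo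
        intro m hm
        calc ENNReal.ofReal (Z m) ≤ ENNReal.ofReal (|τ' m| * flen D e (X + τ m • w)) :=
              ENNReal.ofReal_le_ofReal (hZ m hm)
          _ = ENNReal.ofReal |τ' m| * ENNReal.ofReal (flen D e (X + τ m • w)) :=
              ENNReal.ofReal_mul (abs_nonneg _)
          _ ≤ ENNReal.ofReal |τ' m| * volume (fib D e (X + τ m • w)) := by
              gcongr
              exact ENNReal.ofReal_toReal_le
    _ = ∫⁻ s in τ '' Ioo 0 σ, volume (fib D e (X + s • w)) :=
        (lintegral_image_eq_lintegral_abs_deriv_mul measurableSet_Ioo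
          (fun m hm => (hτ m hm).hasDerivWithinAt) hinj
          (fun s => volume (fib D e (X + s • w)))).symm
    _ ≤ ∫⁻ s, volume (fib D e (X + s • w)) := setLIntegral_le_lintegral _ _

lemma no_both {σ k k' C₀ : ℝ} (hσ : 0 < σ) (hk : 0 < k) (hk' : 0 < k') {X Y : ℝ → ℝ}
    (hX : ∀ m ∈ Ioo 0 σ, 0 < X m) (hY : ∀ m ∈ Ioo 0 σ, 0 < Y m)
    (hXY : ∀ m ∈ Ioo 0 σ, X m + Y m = C₀) (hXc : ContinuousOn X (Ioo 0 σ))
    (h1 : ∫⁻ m in Ioo 0 σ, ENNReal.ofReal (k / X m) ≤ ENNReal.ofReal σ)
    (h2 : ∫⁻ m in Ioo 0 σ, ENNReal.ofReal (k' / Y m) ≤ ENNReal.ofReal σ) : k + k' ≤ C₀ := by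
  have hmX : AEMeasurable (fun m => ENNReal.ofReal (k / X m)) (volume.restrict (Ioo 0 σ)) := by
    apply ENNReal.measurable_ofReal.comp_aemeasurable
    apply ContinuousOn.aemeasurable _ measurableSet_Ioo
    exact continuousOn_const.div hXc (fun m hm => (hX m hm).ne')
  have key : ∫⁻ m in Ioo 0 σ, ENNReal.ofReal (2 * (k + k') - C₀) ≤
      ENNReal.ofReal k * ENNReal.ofReal σ + ENNReal.ofReal k' * ENNReal.ofReal σ := by
    calc ∫⁻ m in Ioo 0 σ, ENNReal.ofReal (2 * (k + k') - C₀)
        ≤ ∫⁻ m in Ioo 0 σ, (ENNReal.ofReal k * ENNReal.ofReal (k / X m) +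
            ENNReal.ofReal k' * ENNReal.ofReal (k' / Y m)) := by
          apply setLIntegral_mono' measurableSet_Ioo
          intro m hm
          have a1 := hX m hm
          have a2 := hY m hm
          rw [← ENNReal.ofReal_mul hk.le, ← ENNReal.ofReal_mul hk'.le,
            ← ENNReal.ofReal_add (by positivity) (by positivity)]
          apply ENNReal.ofReal_le_ofReal
          have b1 : 2 * k - X m ≤ k * (k / X m) := by
            rw [← mul_div_assoc, le_div_iff₀ a1]
            nlinarith [sq_nonneg (k - X m)]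
          have b2 : 2 * k' - Y m ≤ k' * (k' / Y m) := by
            rw [← mul_div_assoc, le_div_iff₀ a2]
            nlinarith [sq_nonneg (k' - Y m)]
          linarith [hXY m hm]
      _ = ENNReal.ofReal k * (∫⁻ m in Ioo 0 σ, ENNReal.ofReal (k / X m)) +
            ENNReal.ofReal k' * (∫⁻ m in Ioo 0 σ, ENNReal.ofReal (k' / Y m)) := by
          rw [lintegral_add_left' (hmX.const_mul _), lintegral_const_mul' _ _ ENNReal.ofReal_ne_top,
            lintegral_const_mul' _ _ ENNReal.ofReal_ne_top]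
      _ ≤ _ := by gcongr
  rw [← ENNReal.ofReal_mul hk.le, ← ENNReal.ofReal_mul hk'.le,
    ← ENNReal.ofReal_add (by positivity) (by positivity)] at key
  rw [setLIntegral_const, Real.volume_Ioo, sub_zero] at key
  by_contra hcon
  push Not at hcon
  have hC0 : 0 < 2 * (k + k') - C₀ := by linarith
  rw [← ENNReal.ofReal_mul hC0.le, ENNReal.ofReal_le_ofReal_iff (by positivity)] at key
  nlinarith

/-- The common interpolation estimate. -/
lemma interp {D : Set E} (hD : IsCompact D) (hDc : Convex ℝ D) {e : E} (he : ‖e‖ = 1) {U V : E}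
    {l m A B k : ℝ} (hU : 0 < flen D e U) (hV : 0 < flen D e V) (hl : 0 ≤ l) (hm : 0 ≤ m)
    (hlm : l + m = 1) (hA : 0 < A) (hB : 0 < B) (hk : 0 ≤ k) :
    k / (l / A + m / B) ≤
      (k * (l * A * (flen D e U)⁻¹ + m * B * (flen D e V)⁻¹)) * flen D e (l • U + m • V) := by
  have hne : ∀ x, 0 < flen D e x → (fib D e x).Nonempty := by
    intro x hx
    by_contra hcon
    rw [not_nonempty_iff_eq_empty] at hcon
    unfold flen at hx
    rw [hcon] at hx
    simp at hx
  have h1 := (flen_concave hD hDc he (hne U hU) (hne V hV) hl hm hlm).2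
  have h2 := holder3 hl hm hlm hA hB hU hV
  have h3 : 0 < l / A + m / B := by
    rcases hl.eq_or_lt with h | h
    · have : 0 < m := by linarith
      positivity
    · positivity
  rw [div_le_iff₀ h3]
  have h4 : 0 ≤ l * A * (flen D e U)⁻¹ + m * B * (flen D e V)⁻¹ := by positivity
  calc k = k * 1 := (mul_one k).symm
    _ ≤ k * ((l * flen D e U + m * flen D e V) * (l * A / flen D e U + m * B / flen D e V) *
          (l / A + m / B)) := mul_le_mul_of_nonneg_left h2 hk
    _ = (k * (l * A * (flen D e U)⁻¹ + m * B * (flen D e V)⁻¹)) *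
          (l * flen D e U + m * flen D e V) * (l / A + m / B) := by
        rw [div_eq_mul_inv (l * A), div_eq_mul_inv (m * B)]
        ring
    _ ≤ _ := by gcongr

end Pool.Agent.MP_fa9df5_co
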