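import Pool.Agent.MP_fa9df5_co.Semicont

/-!
The threshold function of half-space cuts.
-/

set_option autoImplicit false

open MeasureTheory Set Filter Topology
open scoped ENNReal InnerProductSpace

namespace Pool.Agent.MP_fa9df5_co

lemma eq_of_vol {A B : Set P} (hA : IsClosed A) (hB : Convex ℝ B) (hBc : IsCompact B)
    (hAB : A ⊆ B) (h : volume A = volume B) (hpos : 0 < volume B) : B ⊆ A := by
  intro p hp
  by_contra hpA
  have hint : (interior B).Nonempty := by
    by_contra hcon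
    rw [not_nonempty_iff_eq_empty] at hcon
    have h1 : B ⊆ frontier B := by
      intro x hx
      rw [frontier, hcon, sdiff_empty]
      exact subset_closure hx
    have h2 := hB.addHaar_frontier (volume : Measure P)
    exact hpos.ne' (measure_mono_null h1 h2)
  have hcl := hB.closure_interior_eq_closure_of_nonempty_interior hint
  have hpc : p ∈ closure (interior B) := by
    rw [hcl]
    exact subset_closure hp
  have hne : (Aᶜ ∩ interior B).Nonempty := mem_closure_iff.1 hpc Aᶜ hA.isOpen_compl hpA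
  have hopen : IsOpen (Aᶜ ∩ interior B) := hA.isOpen_compl.inter isOpen_interior
  have hvol := hopen.measure_pos volume hne
  have hle : volume A + volume (Aᶜ ∩ interior B) ≤ volume B := by
    rw [← measure_union _ hopen.measurableSet]
    · apply measure_mono
      exact union_subset hAB (inter_subset_right.trans interior_subset)
    · exact disjoint_left.2 (fun x hx hx' => hx'.1 hx)
  rw [h] at hle
  have hfin : volume B ≠ ⊤ := hBc.measure_lt_top.ne
  have h3 : volume B < volume B + volume (Aᶜ ∩ interior B) := ENNReal.lt_add_right hfin hvol.ne'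
  exact absurd hle (not_le.2 h3)

lemma preimage_compact {K : Set E} (hK : IsCompact K) (φ : P →ᵃⁱ[ℝ] E) : IsCompact (φ ⁻¹' K) := by
  refine Metric.isCompact_of_isClosed_isBounded (hK.isClosed.preimage φ.continuous) ?_
  obtain ⟨R, hR⟩ := Metric.isBounded_iff.1 hK.isBounded
  rw [Metric.isBounded_iff]
  refine ⟨R, fun x hx y hy => ?_⟩
  rw [← φ.dist_map]
  exact hR hx hy

lemma preimage_convex {K : Set E} (hK : Convex ℝ K) (φ : P →ᵃⁱ[ℝ] E) : Convex ℝ (φ ⁻¹' K) :=
  hK.affine_preimage φ.toAffineMap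

/-- If a compact convex subset has the same maximal area, it contains a full maximal section. -/
lemma max_section_in {K D : Set E} (hD : IsCompact D) (hDc : Convex ℝ D) (hK : IsCompact K)
    (hKD : K ⊆ D) (h : sigma D ≤ sigma K) (hpos : 0 < sigma D) :
    ∃ φ : P →ᵃⁱ[ℝ] E, volume (φ ⁻¹' D) = sigma D ∧ ∀ y, φ y ∈ D → φ y ∈ K := by
  have hKeq : sigma K = sigma D := le_antisymm (sigma_mono hKD) h
  obtain ⟨φ, hφ⟩ := attained hK (by rw [hKeq]; exact hpos)
  have h1 : volume (φ ⁻¹' K) ≤ volume (φ ⁻¹' D) := measure_mono (preimage_mono hKD)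
  have h2 : volume (φ ⁻¹' D) ≤ sigma D := le_iSup (fun φ : P →ᵃⁱ[ℝ] E => volume (φ ⁻¹' D)) φ
  have h3 : volume (φ ⁻¹' D) = sigma D := le_antisymm h2 (by rw [← hKeq, ← hφ]; exact h1)
  refine ⟨φ, h3, fun y hy => ?_⟩
  exact eq_of_vol (hK.isClosed.preimage φ.continuous) (preimage_convex hDc φ) (preimage_compact hD φ)
    (preimage_mono hKD) (by rw [hφ, h3, hKeq]) (by rw [h3]; exact hpos) hy

/-- Half-space cut. -/
def cut (D : Set E) (v : E) (t : ℝ) : Set E := D ∩ {x | ⟪x, v⟫_ℝ ≤ t}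

lemma cut_compact {D : Set E} (hD : IsCompact D) (v : E) (t : ℝ) : IsCompact (cut D v t) := by
  apply hD.inter_right
  exact isClosed_le (by fun_prop) continuous_const

lemma cut_convex {D : Set E} (hD : Convex ℝ D) (v : E) (t : ℝ) : Convex ℝ (cut D v t) := by
  apply hD.inter
  have h : {x : E | ⟪x, v⟫_ℝ ≤ t} = {x : E | innerₗ E v x ≤ t} := by
    ext x
    simp only [Set.mem_ofPred_eq, innerₗ_apply_apply]
    rw [real_inner_comm]
  rw [h]
  exact convex_halfSpace_le (innerₗ E v).isLinear t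

lemma cut_mono {D : Set E} {v : E} {t t' : ℝ} (h : t ≤ t') : cut D v t ⊆ cut D v t' :=
  fun _ hx => ⟨hx.1, le_trans hx.2 h⟩

lemma sigma_empty : sigma (∅ : Set E) = 0 := by
  unfold sigma
  simp

/-- Admissible thresholds. -/
def Th (D : Set E) (v : E) : Set ℝ := {t | sigma D ≤ sigma (cut D v t)}

/-- The threshold function. -/
noncomputable def hf (D : Set E) (v : E) : ℝ := sInf (Th D v)

lemma exists_bd {D : Set E} (hD : IsCompact D) (v : E) : ∃ R : ℝ, ∀ x ∈ D, |⟪x, v⟫_ℝ| < R := by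
  obtain ⟨R, hR⟩ := hD.isBounded.subset_closedBall 0
  refine ⟨R * ‖v‖ + 1, fun x hx => ?_⟩
  have h1 : ‖x‖ ≤ R := by simpa using hR hx
  have h2 := abs_real_inner_le_norm x v
  have h3 : ‖x‖ * ‖v‖ ≤ R * ‖v‖ := mul_le_mul_of_nonneg_right h1 (norm_nonneg v)
  linarith

lemma Th_ne {D : Set E} (hD : IsCompact D) (v : E) : (Th D v).Nonempty := by
  obtain ⟨R, hR⟩ := exists_bd hD v
  refine ⟨R, ?_⟩
  have : cut D v R = D := by
    apply inter_eq_left.2
    intro x hx
    exact (lt_of_abs_lt (hR x hx)).le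
  show sigma D ≤ sigma (cut D v R)
  rw [this]

lemma Th_bdd {D : Set E} (hD : IsCompact D) (hpos : 0 < sigma D) (v : E) : BddBelow (Th D v) := by
  obtain ⟨R, hR⟩ := exists_bd hD v
  refine ⟨-R, fun t ht => ?_⟩
  by_contra hcon
  push Not at hcon
  have : cut D v t = ∅ := by
    rw [← not_nonempty_iff_eq_empty]
    rintro ⟨x, hx1, hx2⟩
    have := neg_lt_of_abs_lt (hR x hx1)
    have hx3 : ⟪x, v⟫_ℝ ≤ t := hx2
    linarith
  have h2 : sigma D ≤ sigma (cut D v t) := ht
  rw [this, sigma_empty] at h2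
  exact absurd h2 (not_le.2 hpos)

lemma hf_iff {D : Set E} (hD : IsCompact D) (hpos : 0 < sigma D) (v : E) (t : ℝ) :
    hf D v ≤ t ↔ sigma D ≤ sigma (cut D v t) := by
  constructor
  · intro h
    have h1 : sigma D ≤ sigma (⋂ n : ℕ, cut D v (hf D v + 1 / ((n : ℝ) + 1))) := by
      apply sigma_iInter (fun n => cut_compact hD _ _) _ hpos
      · intro n
        have h2 : hf D v < hf D v + 1 / ((n : ℝ) + 1) := by
          have : (0:ℝ) < 1 / ((n : ℝ) + 1) := by positivity
          linarith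
        obtain ⟨t', ht', hlt⟩ := exists_lt_of_csInf_lt (Th_ne hD v) h2
        exact le_trans ht' (sigma_mono (cut_mono hlt.le))
      · intro n m hnm
        apply cut_mono
        have : (n : ℝ) ≤ m := by exact_mod_cast hnm
        gcongr
    have h3 : ⋂ n : ℕ, cut D v (hf D v + 1 / ((n : ℝ) + 1)) ⊆ cut D v t := by
      intro x hx
      rw [mem_iInter] at hx
      refine ⟨(hx 0).1, ?_⟩
      refine le_trans ?_ h
      have hlim : Tendsto (fun n : ℕ => hf D v + 1 / ((n : ℝ) + 1)) atTop (𝓝 (hf D v + 0)) :=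
        tendsto_const_nhds.add tendsto_one_div_add_atTop_nhds_zero_nat
      rw [add_zero] at hlim
      exact ge_of_tendsto hlim (Eventually.of_forall (fun n => (hx n).2))
    exact h1.trans (sigma_mono h3)
  · intro h
    exact csInf_le (Th_bdd hD hpos v) h

lemma hf_smul {D : Set E} (hD : IsCompact D) (hpos : 0 < sigma D) (v : E) {c : ℝ} (hc : 0 < c) :
    hf D (c • v) = c * hf D v := by
  apply eq_of_forall_ge_iff
  intro t
  rw [hf_iff hD hpos]
  have h1 : cut D (c • v) t = cut D v (t / c) := by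
    ext x
    show x ∈ D ∧ ⟪x, c • v⟫_ℝ ≤ t ↔ x ∈ D ∧ ⟪x, v⟫_ℝ ≤ t / c
    rw [inner_smul_right, le_div_iff₀ hc, mul_comm]
  rw [h1, ← hf_iff hD hpos, le_div_iff₀ hc, mul_comm]

lemma hf_zero {D : Set E} (hD : IsCompact D) (hpos : 0 < sigma D) : hf D 0 = 0 := by
  apply eq_of_forall_ge_iff
  intro t
  rw [hf_iff hD hpos]
  by_cases ht : 0 ≤ t
  · have : cut D 0 t = D := by
      apply inter_eq_left.2
      intro x _
      show ⟪x, (0 : E)⟫_ℝ ≤ t
      rw [inner_zero_right]
      exact ht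
    rw [this]
    exact ⟨fun _ => ht, fun _ => le_rfl⟩
  · have : cut D 0 t = ∅ := by
      rw [← not_nonempty_iff_eq_empty]
      rintro ⟨x, -, hx2⟩
      have hx3 : ⟪x, (0 : E)⟫_ℝ ≤ t := hx2
      rw [inner_zero_right] at hx3
      exact ht hx3
    rw [this, sigma_empty]
    exact ⟨fun h => absurd h (not_le.2 hpos), fun h => absurd h ht⟩

lemma hf_meyer {D : Set E} (hD : IsCompact D) (hDc : Convex ℝ D) (hpos : 0 < sigma D) (v : E) :
    0 ≤ hf D v + hf D (-v) := by
  by_contra hcon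
  push Not at hcon
  obtain ⟨φ₁, h1, h1'⟩ := max_section_in hD hDc (cut_compact hD v (hf D v)) inter_subset_left
    ((hf_iff hD hpos v _).1 le_rfl) hpos
  obtain ⟨φ₂, h2, h2'⟩ := max_section_in hD hDc (cut_compact hD (-v) (hf D (-v))) inter_subset_left
    ((hf_iff hD hpos (-v) _).1 le_rfl) hpos
  obtain ⟨x, hx, ⟨y₁, hy₁⟩, ⟨y₂, hy₂⟩⟩ := meyer hD hDc h1 h2 hpos
  have a1 := (h1' y₁ (by rw [hy₁]; exact hx)).2
  have a2 := (h2' y₂ (by rw [hy₂]; exact hx)).2
  rw [hy₁] at a1
  rw [hy₂] at a2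
  have a1' : ⟪x, v⟫_ℝ ≤ hf D v := a1
  have a2' : ⟪x, -v⟫_ℝ ≤ hf D (-v) := a2
  rw [inner_neg_right] at a2'
  linarith

end Pool.Agent.MP_fa9df5_co
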