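import Pool.Agent.MP_fa9df5_co.Pieces

/-!
The case of a linear threshold function, and the main theorem.
-/

set_option autoImplicit false

open MeasureTheory Set Filter Topology
open scoped ENNReal InnerProductSpace

namespace Pool.Agent.MP_fa9df5_co

lemma exists_vec (f : E →L[ℝ] ℝ) : ∃ w : E, ∀ x, f x = ⟪x, w⟫_ℝ := by
  refine ⟨(InnerProductSpace.toDual ℝ E).symm f, fun x => ?_⟩
  rw [real_inner_comm, InnerProductSpace.toDual_symm_apply]

lemma p_mem {D : Set E} (hD : IsCompact D) (hDc : Convex ℝ D) (hpos : 0 < sigma D) {p : E}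
    (hp : ∀ v, hf D v = ⟪p, v⟫_ℝ) {φ : P →ᵃⁱ[ℝ] E} (hφ : volume (φ ⁻¹' D) = sigma D) :
    ∃ y, φ y = p ∧ p ∈ D := by
  by_contra hcon
  have hA : IsCompact (φ '' (φ ⁻¹' D)) := (preimage_compact hD φ).image φ.continuous
  have hAc : Convex ℝ (φ '' (φ ⁻¹' D)) := by
    have h1 := preimage_convex hDc φ
    exact h1.affine_image φ.toAffineMap
  have hpA : p ∉ φ '' (φ ⁻¹' D) := by
    rintro ⟨y, hy, hyp⟩
    refine hcon ⟨y, hyp, ?_⟩
    rw [← hyp]
    exact hy
  obtain ⟨f, u, hf1, hf2⟩ := geometric_hahn_banach_point_closed hAc hA.isClosed hpA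
  obtain ⟨w, hw⟩ := exists_vec f
  have h1 : sigma D ≤ sigma (cut D (-w) (-u)) := by
    rw [← hφ]
    refine le_trans ?_ (le_iSup (fun φ : P →ᵃⁱ[ℝ] E => volume (φ ⁻¹' (cut D (-w) (-u)))) φ)
    apply measure_mono
    intro y hy
    refine ⟨hy, ?_⟩
    have := hf2 (φ y) ⟨y, hy, rfl⟩
    rw [hw] at this
    show ⟪φ y, -w⟫_ℝ ≤ -u
    rw [inner_neg_right]
    linarith
  have h2 := (hf_iff hD hpos (-w) (-u)).2 h1
  rw [hp, inner_neg_right] at h2
  rw [hw] at hf1
  linarith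

/-- A small step in a direction stays inside. -/
lemma small_step {V : Type*} [NormedAddCommGroup V] [NormedSpace ℝ V] {S : Set V} {x : V}
    (hx : x ∈ interior S) (d : V) : ∃ t : ℝ, 0 < t ∧ x + t • d ∈ S ∧ x - t • d ∈ S := by
  rw [mem_interior_iff_mem_nhds] at hx
  have h1 : Tendsto (fun s : ℝ => x + s • d) (𝓝 0) (𝓝 (x + (0:ℝ) • d)) := by
    apply Continuous.tendsto
    fun_prop
  rw [zero_smul, add_zero] at h1
  obtain ⟨ε, hε, hball⟩ := Metric.mem_nhds_iff.1 (h1 hx)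
  have h3 : ε / 2 ∈ Metric.ball (0:ℝ) ε := by
    rw [Metric.mem_ball, Real.dist_eq, sub_zero, abs_of_pos (by positivity)]
    linarith
  have h4 : -(ε / 2) ∈ Metric.ball (0:ℝ) ε := by
    rw [Metric.mem_ball, Real.dist_eq, sub_zero, abs_neg, abs_of_pos (by positivity)]
    linarith
  refine ⟨ε / 2, by positivity, hball h3, ?_⟩
  have h5 : x + (-(ε/2)) • d ∈ S := hball h4
  rwa [neg_smul, ← sub_eq_add_neg] at h5

lemma interior_nonempty_of_pos {B : Set P} (hB : Convex ℝ B) (hpos : 0 < volume B) :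
    (interior B).Nonempty := by
  by_contra hcon
  rw [not_nonempty_iff_eq_empty] at hcon
  have h1 : B ⊆ frontier B := by
    intro x hx
    rw [frontier, hcon, sdiff_empty]
    exact subset_closure hx
  have h2 := hB.addHaar_frontier (volume : Measure P)
  exact hpos.ne' (measure_mono_null h1 h2)

lemma map_add_smul (φ : P →ᵃⁱ[ℝ] E) (y d : P) (t : ℝ) :
    φ (y + t • d) = φ y + t • φ.linearIsometry d := by
  have h3 : φ ((t • d) +ᵥ y) = φ.linearIsometry (t • d) +ᵥ φ y := φ.map_vadd y _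
  rw [vadd_eq_add, vadd_eq_add] at h3
  rw [add_comm y, h3, map_smul, add_comm]

lemma map_sub_smul (φ : P →ᵃⁱ[ℝ] E) (y d : P) (t : ℝ) :
    φ (y - t • d) = φ y - t • φ.linearIsometry d := by
  rw [sub_eq_add_neg, ← neg_smul, map_add_smul, neg_smul, sub_eq_add_neg]

/-- If the threshold function is linear, its vector is an interior point. -/
lemma p_interior {D : Set E} (hD : IsCompact D) (hDc : Convex ℝ D) (hint : (interior D).Nonempty)
    (hpos : 0 < sigma D) {p : E} (hp : ∀ v, hf D v = ⟪p, v⟫_ℝ) : p ∈ interior D := by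
  by_contra hpi
  obtain ⟨f, hf1⟩ := geometric_hahn_banach_open_point hDc.interior isOpen_interior hpi
  obtain ⟨n, hn⟩ := exists_vec f
  have hcl : D ⊆ closure (interior D) := by
    rw [hDc.closure_interior_eq_closure_of_nonempty_interior hint]
    exact subset_closure
  have hle : ∀ a ∈ D, ⟪a, n⟫_ℝ ≤ ⟪p, n⟫_ℝ := by
    intro a ha
    have h1 : closure (interior D) ⊆ {x : E | ⟪x, n⟫_ℝ ≤ ⟪p, n⟫_ℝ} := by
      apply closure_minimal
      · intro x hx
        have := hf1 x hx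
        rw [hn, hn] at this
        exact this.le
      · exact isClosed_le (by fun_prop) continuous_const
    exact h1 (hcl ha)
  have hn0 : n ≠ 0 := by
    obtain ⟨x, hx⟩ := hint
    have := hf1 x hx
    rw [hn, hn] at this
    intro h0
    rw [h0, inner_zero_right, inner_zero_right] at this
    exact lt_irrefl _ this
  -- a maximal section inside the supporting plane
  obtain ⟨φ, hφ1, hφ2⟩ := max_section_in hD hDc (cut_compact hD (-n) (-⟪p, n⟫_ℝ)) inter_subset_left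
    ((hf_iff hD hpos (-n) _).1 (by rw [hp, inner_neg_right])) hpos
  obtain ⟨y₀, hy₀, hy₀p⟩ : ∃ y₀, φ y₀ ∈ D ∧ φ y₀ ≠ p := by
    by_contra hcon
    push Not at hcon
    have h1 : (φ ⁻¹' D).Subsingleton := by
      intro y hy y' hy'
      apply φ.injective
      rw [hcon y hy, hcon y' hy']
    have h2 := h1.measure_zero (volume : Measure P)
    rw [hφ1] at h2
    exact hpos.ne' h2
  obtain ⟨x₀, hx₀⟩ : ∃ x₀, x₀ = φ y₀ := ⟨_, rfl⟩
  rw [← hx₀] at hy₀ hy₀p
  have hx₀n : ⟪x₀ - p, n⟫_ℝ = 0 := by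
    have h1 := (hφ2 y₀ (by rw [← hx₀]; exact hy₀)).2
    have h1' : ⟪φ y₀, -n⟫_ℝ ≤ -⟪p, n⟫_ℝ := h1
    rw [← hx₀, inner_neg_right] at h1'
    have h2 := hle x₀ hy₀
    rw [inner_sub_left]
    linarith
  obtain ⟨w, hw⟩ : ∃ w, w = x₀ - p := ⟨_, rfl⟩
  have hw0 : 0 < ‖w‖ := by
    rw [hw]
    exact norm_pos_iff.2 (sub_ne_zero.2 hy₀p)
  -- the tilted cuts
  obtain ⟨δ, hδ⟩ : ∃ δ : ℕ → ℝ, δ = fun k : ℕ => 1 / ((k : ℝ) + 1) := ⟨_, rfl⟩
  have hδ0 : ∀ k, 0 < δ k := by
    intro k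
    rw [hδ]
    positivity
  have hδanti : Antitone δ := by
    intro k m hkm
    rw [hδ]
    have : (k : ℝ) ≤ m := by exact_mod_cast hkm
    show 1 / ((m : ℝ) + 1) ≤ 1 / ((k : ℝ) + 1)
    gcongr
  obtain ⟨K, hK⟩ : ∃ K : ℕ → Set E, K = fun k => cut D (δ k • w - n) ⟪p, δ k • w - n⟫_ℝ := ⟨_, rfl⟩
  have hKmem : ∀ k x, x ∈ K k ↔ x ∈ D ∧ δ k * ⟪x - p, w⟫_ℝ ≤ ⟪x - p, n⟫_ℝ := by
    intro k x
    rw [hK]
    show (x ∈ D ∧ ⟪x, δ k • w - n⟫_ℝ ≤ ⟪p, δ k • w - n⟫_ℝ) ↔ _
    rw [inner_sub_right, inner_sub_right, inner_smul_right, inner_smul_right, inner_sub_left,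
      inner_sub_left]
    constructor
    · rintro ⟨h1, h2⟩
      exact ⟨h1, by linarith⟩
    · rintro ⟨h1, h2⟩
      exact ⟨h1, by linarith⟩
  have hKc : ∀ k, IsCompact (K k) := by
    intro k
    rw [hK]
    exact cut_compact hD _ _
  have hKn : ∀ k x, x ∈ K k → ⟪x - p, n⟫_ℝ ≤ 0 ∧ ⟪x - p, w⟫_ℝ ≤ 0 := by
    intro k x hx
    obtain ⟨h1, h2⟩ := (hKmem k x).1 hx
    have h3 : ⟪x - p, n⟫_ℝ ≤ 0 := by
      rw [inner_sub_left]
      linarith [hle x h1]
    refine ⟨h3, ?_⟩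
    by_contra h4
    push Not at h4
    have := mul_pos (hδ0 k) h4
    linarith
  have hKanti : Antitone K := by
    intro k m hkm x hx
    obtain ⟨h1, h2⟩ := (hKmem m x).1 hx
    obtain ⟨h3, h4⟩ := hKn m x hx
    refine (hKmem k x).2 ⟨h1, ?_⟩
    have h5 := hδanti hkm
    nlinarith
  have hKs : ∀ k, sigma D ≤ sigma (K k) := by
    intro k
    rw [hK]
    exact (hf_iff hD hpos _ _).1 (by rw [hp])
  have hinter := sigma_iInter hKc hKanti hpos hKs
  have hKint : IsCompact (⋂ k, K k) := by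
    apply (hKc 0).of_isClosed_subset (isClosed_iInter (fun k => (hKc k).isClosed))
    exact iInter_subset K 0
  obtain ⟨ψ, hψ1, hψ2⟩ := max_section_in hD hDc hKint
    ((iInter_subset K 0).trans (fun x hx => ((hKmem 0 x).1 hx).1)) hinter hpos
  have hψn : ∀ y, ψ y ∈ D → ⟪ψ y - p, n⟫_ℝ = 0 ∧ ⟪ψ y - p, w⟫_ℝ ≤ 0 := by
    intro y hy
    have h1 := mem_iInter.1 (hψ2 y hy)
    obtain ⟨h2, h3⟩ := hKn 0 _ (h1 0)
    refine ⟨le_antisymm h2 ?_, h3⟩
    have hlim : Tendsto (fun k => δ k * ⟪ψ y - p, w⟫_ℝ) atTop (𝓝 (0 * ⟪ψ y - p, w⟫_ℝ)) := by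
      apply Tendsto.mul_const
      rw [hδ]
      exact tendsto_one_div_add_atTop_nhds_zero_nat
    rw [zero_mul] at hlim
    exact le_of_tendsto hlim (Eventually.of_forall (fun k => ((hKmem k _).1 (h1 k)).2))
  obtain ⟨yp, hyp, hpD⟩ := p_mem hD hDc hpos hp hψ1
  obtain ⟨y₁, hy₁⟩ := interior_nonempty_of_pos (preimage_convex hDc ψ) (by rw [hψ1]; exact hpos)
  have hlin : ∀ d : P, ⟪ψ.linearIsometry d, n⟫_ℝ = 0 := by
    intro d
    obtain ⟨t, ht, h1, h2⟩ := small_step hy₁ d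
    have h3 := (hψn _ h1).1
    have h4 := (hψn _ h2).1
    rw [map_add_smul, inner_sub_left, inner_add_left, inner_smul_left] at h3
    rw [map_sub_smul, inner_sub_left, inner_sub_left, inner_smul_left] at h4
    simp only [conj_trivial] at h3 h4
    have h5 : t * ⟪ψ.linearIsometry d, n⟫_ℝ = 0 := by linarith
    exact (mul_eq_zero.1 h5).resolve_left ht.ne'
  -- the range of the linear part is the orthogonal complement of `n`
  have hrange : LinearMap.range ψ.linearIsometry.toLinearMap = (ℝ ∙ n)ᗮ := by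
    apply Submodule.eq_of_le_of_finrank_eq
    · rintro _ ⟨d, rfl⟩
      rw [Submodule.mem_orthogonal_singleton_iff_inner_left]
      exact hlin d
    · rw [finrank_range]
      have : Fact (Module.finrank ℝ E = 2 + 1) := ⟨by simp⟩
      exact (Submodule.finrank_orthogonal_span_singleton (𝕜 := ℝ) (n := 2) hn0).symm
  have hwr : w ∈ LinearMap.range ψ.linearIsometry.toLinearMap := by
    rw [hrange, Submodule.mem_orthogonal_singleton_iff_inner_left, hw]
    exact hx₀n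
  obtain ⟨d, hd⟩ := hwr
  have hx₀' : ψ (yp + (1:ℝ) • d) = x₀ := by
    rw [map_add_smul, hyp, one_smul]
    have hd' : ψ.linearIsometry d = w := hd
    rw [hd', hw]
    abel
  have hfin := (hψn (yp + (1:ℝ) • d) (by rw [hx₀']; exact hy₀)).2
  rw [hx₀', ← hw, real_inner_self_eq_norm_sq] at hfin
  have : 0 < ‖w‖^2 := by positivity
  linarith

end Pool.Agent.MP_fa9df5_co
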