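import Pool.Agent.MP_fa9df5_co.Linear

/-!
The main theorem: three convex pieces of smaller maximal section.
-/

set_option autoImplicit false

open MeasureTheory Set Filter Topology
open scoped ENNReal InnerProductSpace

namespace Pool.Agent.MP_fa9df5_co

lemma inner_three (x y : E) : ⟪x, y⟫_ℝ = x 0 * y 0 + x 1 * y 1 + x 2 * y 2 := by
  rw [PiLp.inner_apply, Fin.sum_univ_three]
  simp only [RCLike.inner_apply, conj_trivial]
  ring

lemma no_plane_in_wedge {D : Set E} (hD : IsCompact D) (hDc : Convex ℝ D) (hpos : 0 < sigma D)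
    {p : E} (hp : ∀ v, hf D v = ⟪p, v⟫_ℝ) (hpi : p ∈ interior D) {a b c : E}
    (hne : ∀ d : E, ⟪d, a - b⟫_ℝ = 0 → ⟪d, a - c⟫_ℝ = 0 → d 0 = 0 ∧ d 1 = 0) :
    sigma (wedge D p a b c) < sigma D := by
  by_contra hcon
  push Not at hcon
  obtain ⟨φ, hφ1, hφ2⟩ := max_section_in hD hDc (wedge_compact hD p a b c) inter_subset_left hcon hpos
  obtain ⟨yp, hyp, hpD⟩ := p_mem hD hDc hpos hp hφ1
  have hpi' : yp ∈ interior (φ ⁻¹' D) := by
    have h1 : φ ⁻¹' (interior D) ⊆ interior (φ ⁻¹' D) :=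
      preimage_interior_subset_interior_preimage φ.continuous
    apply h1
    show φ yp ∈ interior D
    rw [hyp]
    exact hpi
  have hlin : ∀ d : P, (φ.linearIsometry d) 0 = 0 ∧ (φ.linearIsometry d) 1 = 0 := by
    intro d
    obtain ⟨t, ht, h1, h2⟩ := small_step hpi' d
    have h3 := (hφ2 _ h1).2
    have h4 := (hφ2 _ h2).2
    rw [map_add_smul, hyp] at h3
    rw [map_sub_smul, hyp] at h4
    have e1 : p + t • φ.linearIsometry d - p = t • φ.linearIsometry d := by abel
    have e2 : p - t • φ.linearIsometry d - p = -(t • φ.linearIsometry d) := by abel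
    have a1 : ⟪p + t • φ.linearIsometry d - p, a - b⟫_ℝ ≤ 0 := h3.1
    have a2 : ⟪p + t • φ.linearIsometry d - p, a - c⟫_ℝ ≤ 0 := h3.2
    have a3 : ⟪p - t • φ.linearIsometry d - p, a - b⟫_ℝ ≤ 0 := h4.1
    have a4 : ⟪p - t • φ.linearIsometry d - p, a - c⟫_ℝ ≤ 0 := h4.2
    rw [e1, inner_smul_left] at a1 a2
    rw [e2, inner_neg_left, inner_smul_left] at a3 a4
    simp only [conj_trivial] at a1 a2 a3 a4
    apply hne
    · have : t * ⟪φ.linearIsometry d, a - b⟫_ℝ = 0 := by linarith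
      exact (mul_eq_zero.1 this).resolve_left ht.ne'
    · have : t * ⟪φ.linearIsometry d, a - c⟫_ℝ = 0 := by linarith
      exact (mul_eq_zero.1 this).resolve_left ht.ne'
  obtain ⟨h1, h2, h3⟩ := orth_of_basis φ (EuclideanSpace.basisFun (Fin 2) ℝ)
  obtain ⟨x, hx⟩ : ∃ x, x = φ.linearIsometry ((EuclideanSpace.basisFun (Fin 2) ℝ) 0) := ⟨_, rfl⟩
  obtain ⟨y, hy⟩ : ∃ y, y = φ.linearIsometry ((EuclideanSpace.basisFun (Fin 2) ℝ) 1) := ⟨_, rfl⟩
  have hx0 := hlin ((EuclideanSpace.basisFun (Fin 2) ℝ) 0)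
  have hy0 := hlin ((EuclideanSpace.basisFun (Fin 2) ℝ) 1)
  rw [← hx] at h1 h3 hx0
  rw [← hy] at h2 h3 hy0
  have i1 : ⟪x, x⟫_ℝ = 1 := by rw [real_inner_self_eq_norm_sq, h1]; norm_num
  have i2 : ⟪y, y⟫_ℝ = 1 := by rw [real_inner_self_eq_norm_sq, h2]; norm_num
  rw [inner_three, hx0.1, hx0.2] at i1
  rw [inner_three, hy0.1, hy0.2] at i2
  rw [inner_three, hx0.1, hx0.2] at h3
  have h4 : x 2 * y 2 = 0 := by linarith
  have h5 : x 2 * x 2 = 1 := by linarith
  have h6 : y 2 * y 2 = 1 := by linarith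
  have h7 : (x 2 * y 2) * (x 2 * y 2) = 1 := by
    calc (x 2 * y 2) * (x 2 * y 2) = (x 2 * x 2) * (y 2 * y 2) := by ring
      _ = 1 := by rw [h5, h6]; norm_num
  rw [h4] at h7
  norm_num at h7

lemma linear_case {D : Set E} (hD : IsCompact D) (hDc : Convex ℝ D) (hint : (interior D).Nonempty)
    (hpos : 0 < sigma D) {p : E} (hp : ∀ v, hf D v = ⟪p, v⟫_ℝ) : Good D := by
  have hpi := p_interior hD hDc hint hpos hp
  obtain ⟨a, ha⟩ : ∃ a : E, a = !₂[1, 0, 0] := ⟨_, rfl⟩
  obtain ⟨b, hb⟩ : ∃ b : E, b = !₂[0, 1, 0] := ⟨_, rfl⟩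
  obtain ⟨c, hc⟩ : ∃ c : E, c = !₂[-1, -1, 0] := ⟨_, rfl⟩
  have ha0 : a 0 = 1 ∧ a 1 = 0 ∧ a 2 = 0 := by rw [ha]; exact ⟨rfl, rfl, rfl⟩
  have hb0 : b 0 = 0 ∧ b 1 = 1 ∧ b 2 = 0 := by rw [hb]; exact ⟨rfl, rfl, rfl⟩
  have hc0 : c 0 = -1 ∧ c 1 = -1 ∧ c 2 = 0 := by rw [hc]; exact ⟨rfl, rfl, rfl⟩
  obtain ⟨a0, a1, a2⟩ := ha0
  obtain ⟨b0, b1, b2⟩ := hb0
  obtain ⟨c0, c1, c2⟩ := hc0
  refine wedge_case hD hDc (q := p) (a := a) (b := b) (c := c) ?_ ?_ ?_ ?_ ?_ ?_
  · intro h
    rw [h, b0] at a0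
    norm_num at a0
  · intro h
    rw [h, c0] at a0
    norm_num at a0
  · intro h
    rw [h, c0] at b0
    norm_num at b0
  · apply no_plane_in_wedge hD hDc hpos hp hpi
    intro d h1 h2
    rw [inner_three] at h1 h2
    simp only [PiLp.sub_apply, a0, a1, a2, b0, b1, b2, c0, c1, c2] at h1 h2
    constructor <;> linarith
  · apply no_plane_in_wedge hD hDc hpos hp hpi
    intro d h1 h2
    rw [inner_three] at h1 h2
    simp only [PiLp.sub_apply, a0, a1, a2, b0, b1, b2, c0, c1, c2] at h1 h2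
    constructor <;> linarith
  · apply no_plane_in_wedge hD hDc hpos hp hpi
    intro d h1 h2
    rw [inner_three] at h1 h2
    simp only [PiLp.sub_apply, a0, a1, a2, b0, b1, b2, c0, c1, c2] at h1 h2
    constructor <;> linarith

lemma sigma_pos {D : Set E} (hint : (interior D).Nonempty) : 0 < sigma D := by
  obtain ⟨x, hx⟩ := hint
  rw [mem_interior_iff_mem_nhds] at hx
  obtain ⟨φ₀⟩ : Nonempty (P →ᵃⁱ[ℝ] E) := by
    have h : Orth (!₂[1, 0, 0] : E) (!₂[0, 1, 0] : E) := by
      refine ⟨?_, ?_, ?_⟩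
      · rw [EuclideanSpace.norm_eq, Fin.sum_univ_three]
        simp
      · rw [EuclideanSpace.norm_eq, Fin.sum_univ_three]
        simp
      · rw [inner_three]
        simp
    exact ⟨(frame_iso (q := x) h).choose⟩
  obtain ⟨q, u, v, h1, -⟩ := frame_of_iso φ₀
  refine lt_of_lt_of_le ?_ (ar_le_sigma (q := x) h1)
  have hc : Tendsto (fun p : ℝ × ℝ => x + p.1 • u + p.2 • v) (𝓝 0) (𝓝 (x + (0:ℝ) • u + (0:ℝ) • v)) := by
    have : Continuous (fun p : ℝ × ℝ => x + p.1 • u + p.2 • v) := by fun_prop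
    exact this.tendsto 0
  rw [zero_smul, zero_smul, add_zero, add_zero] at hc
  exact Measure.measure_pos_of_mem_nhds volume (hc hx)

theorem main_weak {D : Set E} (hD : IsCompact D) (hDc : Convex ℝ D) (hint : (interior D).Nonempty) :
    Good D := by
  have hpos := sigma_pos hint
  by_cases H : ∃ v, 0 < hf D v + hf D (-v)
  · obtain ⟨v, hv⟩ := H
    apply two_case hD hDc (v := v) (t := (hf D v - hf D (-v)) / 2)
    · by_contra hcon
      have := (hf_iff hD hpos v _).2 (not_lt.1 hcon)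
      linarith
    · by_contra hcon
      have := (hf_iff hD hpos (-v) _).2 (not_lt.1 hcon)
      linarith
  · push Not at H
    have hodd : ∀ v, hf D (-v) = -hf D v := by
      intro v
      have h1 := H v
      have h2 := hf_meyer hD hDc hpos v
      linarith
    by_cases hadd : ∀ u v, hf D (u + v) = hf D u + hf D v
    · have hsm : ∀ (r : ℝ) (v : E), hf D (r • v) = r * hf D v := by
        intro r v
        rcases lt_trichotomy r 0 with h | h | h
        · have e : r • v = -((-r) • v) := by rw [neg_smul, neg_neg]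
          rw [e, hodd, hf_smul hD hpos v (by linarith : 0 < -r)]
          ring
        · rw [h, zero_smul, zero_mul, hf_zero hD hpos]
        · exact hf_smul hD hpos v h
      let f : E →ₗ[ℝ] ℝ :=
        { toFun := hf D
          map_add' := hadd
          map_smul' := by
            intro r v
            simp only [smul_eq_mul, RingHom.id_apply]
            exact hsm r v }
      obtain ⟨p, hp⟩ := exists_vec (LinearMap.toContinuousLinearMap f)
      apply linear_case hD hDc hint hpos (p := p)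
      intro v
      rw [real_inner_comm]
      exact hp v
    · push Not at hadd
      obtain ⟨u, v, huv⟩ := hadd
      rcases lt_or_gt_of_ne huv with h | h
      · apply pos_case hD hDc hpos hodd (a := u) (b := v) (c := -(u + v)) (by abel)
        rw [hodd]
        linarith
      · apply pos_case hD hDc hpos hodd (a := -u) (b := -v) (c := u + v) (by abel)
        rw [hodd, hodd]
        linarith

end Pool.Agent.MP_fa9df5_co
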