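import Pool.Agent.MP_fa9df5_co.Cross

/-!
Two plane sections of maximal area are never disjoint (dimension three).
-/

set_option autoImplicit false

open MeasureTheory Set Filter Topology
open scoped ENNReal InnerProductSpace

namespace Pool.Agent.MP_fa9df5_co

lemma norm_gap {e₁ e₂ : E} (h1 : ‖e₁‖ = 1) (h2 : ‖e₂‖ = 1) (hlt : ⟪e₁, e₂⟫_ℝ < 1) {x y : ℝ}
    (hx : 0 < x) (hy : 0 < y) : |y - x| < ‖y • e₂ - x • e₁‖ := by
  have e : ‖y • e₂ - x • e₁‖^2 = y^2 + x^2 - 2 * (x * y) * ⟪e₁, e₂⟫_ℝ := by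
    rw [norm_sub_sq_real, norm_smul, norm_smul, h1, h2, inner_smul_left, inner_smul_right,
      real_inner_comm e₁ e₂]
    simp only [Real.norm_eq_abs, mul_one, sq_abs, conj_trivial]
    ring
  apply abs_lt_of_sq_lt_sq _ (norm_nonneg _)
  rw [e]
  have : 0 < x * y := by positivity
  nlinarith

lemma cross_pos {D : Set E} (hD : IsCompact D) (hDc : Convex ℝ D) {O e₁ e₂ e : E}
    (h1 : Orth e₁ e) (h2 : Orth e₂ e) (hlt : ⟪e₁, e₂⟫_ℝ < 1) (hpos : 0 < sigma D)
    (ha1 : ar D O e₁ e = sigma D) (ha2 : ar D O e₂ e = sigma D)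
    (hs1 : ∀ s : ℝ, (fib D e (O + s • e₁)).Nonempty → 0 < s)
    (hs2 : ∀ s : ℝ, (fib D e (O + s • e₂)).Nonempty → 0 < s) : False := by
  obtain ⟨a, b, hab, hI, u, hu⟩ := line_data hD hDc h1 (by rw [ha1]; exact hpos)
  obtain ⟨c, d, hcd, hI2, v, hv⟩ := line_data hD hDc h2 (by rw [ha2]; exact hpos)
  have hfin : sigma D ≠ ⊤ := by
    rw [← ha1]
    exact (sec_compact hD h1).measure_lt_top.ne
  obtain ⟨σ, hσdef⟩ : ∃ σ, σ = (sigma D).toReal := ⟨_, rfl⟩
  have hσ : 0 < σ := by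
    rw [hσdef]
    exact ENNReal.toReal_pos hpos.ne' hfin
  have hσ' : sigma D = ENNReal.ofReal σ := by
    rw [hσdef, ENNReal.ofReal_toReal hfin]
  rw [ha1, ← hσdef] at hu
  rw [ha2, ← hσdef] at hv
  have ha : 0 < a := hs1 a ((hI a).2 ⟨le_rfl, hab.le⟩)
  have hc : 0 < c := hs2 c ((hI2 c).2 ⟨le_rfl, hcd.le⟩)
  obtain ⟨y, hy⟩ : ∃ y, y = max d (b * c / a) := ⟨_, rfl⟩
  have hy1 : d ≤ y := hy ▸ le_max_left _ _
  have hy2 : b * c ≤ a * y := by
    have : b * c / a ≤ y := hy ▸ le_max_right _ _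
    rw [div_le_iff₀ ha] at this
    linarith
  obtain ⟨x', hx'⟩ : ∃ x', x' = a * y / c := ⟨_, rfl⟩
  have hx'1 : b ≤ x' := by
    rw [hx', le_div_iff₀ hc]
    exact hy2
  have hxy : c * x' = a * y := by
    rw [hx']
    field_simp
  have hy0 : 0 < y := by linarith
  have hx'0 : 0 < x' := by linarith
  have k1 := norm_gap h1.1 h2.1 hlt ha hy0
  have k2 := norm_gap h2.1 h1.1 (by rw [real_inner_comm]; exact hlt) hc hx'0
  have hk1 : 0 < ‖y • e₂ - a • e₁‖ := lt_of_le_of_lt (abs_nonneg _) k1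
  have hk2 : 0 < ‖x' • e₁ - c • e₂‖ := lt_of_le_of_lt (abs_nonneg _) k2
  have g1 := cross_gain hD hDc h1 h2 (σ := σ) (u := u) (v := v) (x := a) (y := y) ha hk1
    (fun m hm => ⟨(hu m hm).1.1, (hu m hm).2⟩)
    (fun m hm => ⟨lt_trans hc (hv m hm).1.1, lt_of_lt_of_le (hv m hm).1.2 hy1, (hv m hm).2⟩)
  have g2 := cross_gain hD hDc h2 h1 (σ := σ) (u := v) (v := u) (x := c) (y := x') hc hk2
    (fun m hm => ⟨(hv m hm).1.1, (hv m hm).2⟩)
    (fun m hm => ⟨lt_trans ha (hu m hm).1.1, lt_of_lt_of_le (hu m hm).1.2 hx'1, (hu m hm).2⟩)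
  rw [hσ'] at g1 g2
  have huc : ContinuousOn u (Ioo 0 σ) := fun m hm => (hu m hm).2.2.continuousAt.continuousWithinAt
  have hvc : ContinuousOn v (Ioo 0 σ) := fun m hm => (hv m hm).2.2.continuousAt.continuousWithinAt
  have hu0 : ∀ m ∈ Ioo 0 σ, a < u m := fun m hm => (hu m hm).1.1
  have hv0 : ∀ m ∈ Ioo 0 σ, c < v m := fun m hm => (hv m hm).1.1
  have hu1 : ∀ m ∈ Ioo 0 σ, u m < x' := fun m hm => lt_of_lt_of_le (hu m hm).1.2 hx'1
  have hv1 : ∀ m ∈ Ioo 0 σ, v m < y := fun m hm => lt_of_lt_of_le (hv m hm).1.2 hy1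
  have hfinal := no_both (C₀ := (y - a) + (x' - c)) hσ hk1 hk2
    (X := fun m => a * (y - v m) / v m + y * (u m - a) / u m)
    (Y := fun m => c * (x' - u m) / u m + x' * (v m - c) / v m) ?_ ?_ ?_ ?_ g1 g2
  · have := le_abs_self (y - a)
    have := le_abs_self (x' - c)
    linarith
  · intro m hm
    have := hu0 m hm
    have := hv0 m hm
    have := hv1 m hm
    have c1 : 0 < y - v m := by linarith
    have c2 : 0 < u m - a := by linarith
    have c3 : 0 < u m := by linarith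
    have c4 : 0 < v m := by linarith
    positivity
  · intro m hm
    have := hu0 m hm
    have := hv0 m hm
    have := hu1 m hm
    have c1 : 0 < x' - u m := by linarith
    have c2 : 0 < v m - c := by linarith
    have c3 : 0 < u m := by linarith
    have c4 : 0 < v m := by linarith
    positivity
  · intro m hm
    have c3 : u m ≠ 0 := by
      have := hu0 m hm
      linarith
    have c4 : v m ≠ 0 := by
      have := hv0 m hm
      linarith
    have e1 : a * (y - v m) / v m + y * (u m - a) / u m =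
        a * y / v m - a + y - a * y / u m := by
      field_simp
      ring
    have e2 : c * (x' - u m) / u m + x' * (v m - c) / v m =
        c * x' / u m - c + x' - c * x' / v m := by
      field_simp
      ring
    show a * (y - v m) / v m + y * (u m - a) / u m + (c * (x' - u m) / u m + x' * (v m - c) / v m) = _
    rw [e1, e2, hxy]
    ring
  · apply ContinuousOn.add
    · apply ContinuousOn.div
      · exact continuousOn_const.mul (continuousOn_const.sub hvc)
      · exact hvc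
      · intro m hm
        have := hv0 m hm
        linarith
    · apply ContinuousOn.div
      · exact continuousOn_const.mul (huc.sub continuousOn_const)
      · exact huc
      · intro m hm
        have := hu0 m hm
        linarith

lemma par_case {D : Set E} (hD : IsCompact D) (hDc : Convex ℝ D) {q z w e : E}
    (h1 : Orth w e) (hz : ⟪z, e⟫_ℝ = 0) (hzw : ⟪z, w⟫_ℝ = 0) (hz0 : z ≠ 0) (hpos : 0 < sigma D)
    (ha1 : ar D q w e = sigma D) (ha2 : ar D (q + z) w e = sigma D) : False := by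
  obtain ⟨a, b, hab, hI, u, hu⟩ := line_data hD hDc h1 (by rw [ha1]; exact hpos)
  obtain ⟨c, d, hcd, hI2, v, hv⟩ := line_data hD hDc h1 (q := q + z) (by rw [ha2]; exact hpos)
  have hfin : sigma D ≠ ⊤ := by
    rw [← ha1]
    exact (sec_compact hD h1).measure_lt_top.ne
  obtain ⟨σ, hσdef⟩ : ∃ σ, σ = (sigma D).toReal := ⟨_, rfl⟩
  have hσ : 0 < σ := by
    rw [hσdef]
    exact ENNReal.toReal_pos hpos.ne' hfin
  have hσ' : sigma D = ENNReal.ofReal σ := by
    rw [hσdef, ENNReal.ofReal_toReal hfin]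
  rw [ha1, ← hσdef] at hu
  rw [ha2, ← hσdef] at hv
  have hgap : ∀ (z' : E), ⟪z', w⟫_ℝ = 0 → z' ≠ 0 → ∀ t : ℝ, |t| < ‖z' + t • w‖ := by
    intro z' hz' hz'0 t
    apply abs_lt_of_sq_lt_sq _ (norm_nonneg _)
    rw [norm_add_sq_real, inner_smul_right, hz', norm_smul, h1.1, Real.norm_eq_abs, mul_one, sq_abs]
    have : 0 < ‖z'‖ := norm_pos_iff.2 hz'0
    nlinarith
  have hz'w : ⟪-z, w⟫_ℝ = 0 := by rw [inner_neg_left, hzw, neg_zero]
  have hz'e : ⟪-z, e⟫_ℝ = 0 := by rw [inner_neg_left, hz, neg_zero]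
  have k1 := hgap z hzw hz0 (d - a)
  have k2 := hgap (-z) hz'w (neg_ne_zero.2 hz0) (b - c)
  have hk1 : 0 < ‖z + (d - a) • w‖ := lt_of_le_of_lt (abs_nonneg _) k1
  have hk2 : 0 < ‖-z + (b - c) • w‖ := lt_of_le_of_lt (abs_nonneg _) k2
  have g1 := par_gain hD hDc h1 hz (σ := σ) (u := u) (v := v) (x := a) (y := d) hk1
    (fun m hm => ⟨(hu m hm).1.1, (hu m hm).2⟩)
    (fun m hm => ⟨(hv m hm).1.2, (hv m hm).2⟩)
  have g2 := par_gain hD hDc h1 (q := q + z) hz'e (σ := σ) (u := v) (v := u) (x := c) (y := b) hk2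
    (fun m hm => ⟨(hv m hm).1.1, (hv m hm).2⟩)
    (fun m hm => by
      have e : q + z + -z = q := by abel
      rw [e]
      exact ⟨(hu m hm).1.2, (hu m hm).2⟩)
  rw [hσ'] at g1 g2
  have huc : ContinuousOn u (Ioo 0 σ) := fun m hm => (hu m hm).2.2.continuousAt.continuousWithinAt
  have hvc : ContinuousOn v (Ioo 0 σ) := fun m hm => (hv m hm).2.2.continuousAt.continuousWithinAt
  have hfinal := no_both (C₀ := (d - a) + (b - c)) hσ hk1 hk2
    (X := fun m => (u m - a) + (d - v m)) (Y := fun m => (v m - c) + (b - u m)) ?_ ?_ ?_ ?_ g1 g2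
  · have := le_abs_self (d - a)
    have := le_abs_self (b - c)
    linarith
  · intro m hm
    have h3 := (hu m hm).1
    have h4 := (hv m hm).1
    show 0 < (u m - a) + (d - v m)
    linarith [h3.1, h4.2]
  · intro m hm
    have h3 := (hu m hm).1
    have h4 := (hv m hm).1
    show 0 < (v m - c) + (b - u m)
    linarith [h3.2, h4.1]
  · intro m hm
    show (u m - a) + (d - v m) + ((v m - c) + (b - u m)) = _
    ring
  · exact (huc.sub continuousOn_const).add (continuousOn_const.sub hvc)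

end Pool.Agent.MP_fa9df5_co
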