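import Pool.Agent.MP_fa9df5_co.Meyer

/-!
Two plane sections of maximal area are never disjoint: the general statement.
-/

set_option autoImplicit false

open MeasureTheory Set Filter Topology
open scoped ENNReal InnerProductSpace

namespace Pool.Agent.MP_fa9df5_co

lemma ar_neg {D : Set E} (hD : IsClosed D) (q u v : E) : ar D q (-u) v = ar D q u v := by
  rw [ar_eq_lintegral hD, ar_eq_lintegral hD]
  have h := (Measure.measurePreserving_neg (volume : Measure ℝ)).lintegral_comp (fib_meas hD q u v)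
  rw [← h]
  congr 1
  ext s
  rw [smul_neg, neg_smul]

lemma basis_with {w : P} (hw : ‖w‖ = 1) : ∃ b : OrthonormalBasis (Fin 2) ℝ P, b 1 = w := by
  have h : Orthonormal ℝ (({1} : Set (Fin 2)).domRestrict (fun _ : Fin 2 => w)) := by
    constructor
    · intro i
      exact hw
    · intro i j hij
      exfalso
      apply hij
      apply Subtype.ext
      rw [i.2, j.2]
  obtain ⟨b, hb⟩ := h.exists_orthonormalBasis_extension_of_card_eq (by simp)
  exact ⟨b, hb 1 rfl⟩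

lemma finrank_range (φ : P →ᵃⁱ[ℝ] E) :
    Module.finrank ℝ (LinearMap.range φ.linearIsometry.toLinearMap) = 2 := by
  rw [LinearMap.finrank_range_of_inj φ.linearIsometry.injective]
  simp

lemma common_dir (φ₁ φ₂ : P →ᵃⁱ[ℝ] E) : ∃ w₁ w₂ : P, ‖w₁‖ = 1 ∧ ‖w₂‖ = 1 ∧
    φ₁.linearIsometry w₁ = φ₂.linearIsometry w₂ := by
  have h1 := finrank_range φ₁
  have h2 := finrank_range φ₂
  have h3 := Submodule.finrank_sup_add_finrank_inf_eq (LinearMap.range φ₁.linearIsometry.toLinearMap)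
    (LinearMap.range φ₂.linearIsometry.toLinearMap)
  have h4 : Module.finrank ℝ ((LinearMap.range φ₁.linearIsometry.toLinearMap) ⊔
    (LinearMap.range φ₂.linearIsometry.toLinearMap) : Submodule ℝ E) ≤ 3 := by
    refine (Submodule.finrank_le _).trans ?_
    simp
  have h5 : 0 < Module.finrank ℝ ((LinearMap.range φ₁.linearIsometry.toLinearMap) ⊓
    (LinearMap.range φ₂.linearIsometry.toLinearMap) : Submodule ℝ E) := by omega
  have h6 := Module.finrank_pos_iff.1 h5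
  obtain ⟨⟨x, hx⟩, hx0⟩ := exists_ne (0 : ((LinearMap.range φ₁.linearIsometry.toLinearMap) ⊓
    (LinearMap.range φ₂.linearIsometry.toLinearMap) : Submodule ℝ E))
  have hx0' : x ≠ 0 := fun h => hx0 (Subtype.ext h)
  obtain ⟨⟨w₁, hw₁⟩, ⟨w₂, hw₂⟩⟩ := hx
  have n1 : ‖w₁‖ = ‖x‖ := by
    rw [← hw₁]
    exact (φ₁.linearIsometry.norm_map w₁).symm
  have n2 : ‖w₂‖ = ‖x‖ := by
    rw [← hw₂]
    exact (φ₂.linearIsometry.norm_map w₂).symm
  have hxn : ‖x‖ ≠ 0 := norm_ne_zero_iff.2 hx0'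
  refine ⟨‖x‖⁻¹ • w₁, ‖x‖⁻¹ • w₂, ?_, ?_, ?_⟩
  · rw [norm_smul, norm_inv, norm_norm, n1, inv_mul_cancel₀ hxn]
  · rw [norm_smul, norm_inv, norm_norm, n2, inv_mul_cancel₀ hxn]
  · rw [map_smul, map_smul]
    congr 1
    exact hw₁.trans hw₂.symm

lemma orth_of_basis (φ : P →ᵃⁱ[ℝ] E) (b : OrthonormalBasis (Fin 2) ℝ P) :
    Orth (φ.linearIsometry (b 0)) (φ.linearIsometry (b 1)) := by
  refine ⟨?_, ?_, ?_⟩
  · rw [LinearIsometry.norm_map, b.norm_eq_one]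
  · rw [LinearIsometry.norm_map, b.norm_eq_one]
  · rw [LinearIsometry.inner_map_map]
    exact b.inner_eq_zero (by decide)

/-- expansion in a basis `e₁, e₂, e` -/
lemma expand {e₁ e₂ e : E} (h1 : Orth e₁ e) (h2 : Orth e₂ e) (hlt : ⟪e₁, e₂⟫_ℝ < 1)
    (hgt : -1 < ⟪e₁, e₂⟫_ℝ) (x : E) : ∃ α β γ : ℝ, α • e₁ + β • e₂ + γ • e = x := by
  have hli : LinearIndependent ℝ ![e₁, e₂, e] := by
    rw [Fintype.linearIndependent_iff]
    intro g hg
    simp only [Fin.sum_univ_three, Matrix.cons_val_zero, Matrix.cons_val_one,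
      Matrix.cons_val] at hg
    have i1 : g 0 + g 1 * ⟪e₁, e₂⟫_ℝ = 0 := by
      have := congrArg (fun y => ⟪y, e₁⟫_ℝ) hg
      simp only [inner_add_left, inner_smul_left, inner_zero_left] at this
      rw [real_inner_self_eq_norm_sq, h1.1, show ⟪e₂, e₁⟫_ℝ = ⟪e₁, e₂⟫_ℝ from real_inner_comm _ _,
        show ⟪e, e₁⟫_ℝ = 0 by rw [real_inner_comm]; exact h1.2.2] at this
      simp only [conj_trivial] at this
      linarith
    have i2 : g 0 * ⟪e₁, e₂⟫_ℝ + g 1 = 0 := by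
      have := congrArg (fun y => ⟪y, e₂⟫_ℝ) hg
      simp only [inner_add_left, inner_smul_left, inner_zero_left] at this
      rw [real_inner_self_eq_norm_sq, h2.1,
        show ⟪e, e₂⟫_ℝ = 0 by rw [real_inner_comm]; exact h2.2.2] at this
      simp only [conj_trivial] at this
      linarith
    have i3 : g 2 = 0 := by
      have := congrArg (fun y => ⟪y, e⟫_ℝ) hg
      simp only [inner_add_left, inner_smul_left, inner_zero_left] at this
      rw [real_inner_self_eq_norm_sq, h1.2.1, h1.2.2, h2.2.2] at this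
      simp only [conj_trivial] at this
      linarith
    have hc : (1 - ⟪e₁, e₂⟫_ℝ) * (1 + ⟪e₁, e₂⟫_ℝ) ≠ 0 := by
      apply mul_ne_zero <;> linarith
    have i4 : g 1 = 0 := by
      have : g 1 * ((1 - ⟪e₁, e₂⟫_ℝ) * (1 + ⟪e₁, e₂⟫_ℝ)) = 0 := by
        linear_combination i2 - ⟪e₁, e₂⟫_ℝ * i1
      exact (mul_eq_zero.1 this).resolve_right hc
    have i5 : g 0 = 0 := by
      rw [i4] at i1
      linarith
    intro i
    fin_cases i
    · exact i5
    · exact i4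
    · exact i3
  have hspan := hli.span_eq_top_of_card_eq_finrank' (by simp)
  have hx : x ∈ Submodule.span ℝ (Set.range ![e₁, e₂, e]) := by
    rw [hspan]
    trivial
  have hr : Set.range ![e₁, e₂, e] = {e₁, e₂, e} := by
    ext y
    simp only [Matrix.range_cons, Matrix.range_empty, Set.union_empty]
    simp
    tauto
  rw [hr, Submodule.mem_span_triple] at hx
  exact hx

lemma Orth_neg {u v : E} (h : Orth u v) : Orth (-u) v :=
  ⟨by rw [norm_neg]; exact h.1, h.2.1, by rw [inner_neg_left, h.2.2, neg_zero]⟩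

lemma sign_choice {D : Set E} (hD : IsCompact D) (hDc : Convex ℝ D) {O e₁ e : E} (h1 : Orth e₁ e)
    (hpos : 0 < ar D O e₁ e) (hO : ¬ (fib D e O).Nonempty) :
    ∃ e' : E, (e' = e₁ ∨ e' = -e₁) ∧ Orth e' e ∧ ar D O e' e = ar D O e₁ e ∧
      ∀ s : ℝ, (fib D e (O + s • e')).Nonempty → 0 < s := by
  obtain ⟨a, b, hab, hI, -⟩ := line_data hD hDc h1 hpos
  have h0 : (0 : ℝ) ∉ Icc a b := by
    intro h
    have := (hI 0).2 h
    rw [zero_smul, add_zero] at this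
    exact hO this
  by_cases ha : 0 < a
  · refine ⟨e₁, Or.inl rfl, h1, rfl, fun s hs => ?_⟩
    have := (hI s).1 hs
    linarith [this.1]
  · have hb : b < 0 := by
      by_contra hb
      push Not at hb ha
      exact h0 ⟨ha, hb⟩
    refine ⟨-e₁, Or.inr rfl, Orth_neg h1, ar_neg hD.isClosed _ _ _, fun s hs => ?_⟩
    rw [smul_neg, ← neg_smul] at hs
    have := (hI (-s)).1 hs
    linarith [this.2]

theorem meyer {D : Set E} (hD : IsCompact D) (hDc : Convex ℝ D) {φ₁ φ₂ : P →ᵃⁱ[ℝ] E}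
    (h1 : volume (φ₁ ⁻¹' D) = sigma D) (h2 : volume (φ₂ ⁻¹' D) = sigma D) (hpos : 0 < sigma D) :
    ∃ x ∈ D, x ∈ range φ₁ ∧ x ∈ range φ₂ := by
  by_contra hcon
  push Not at hcon
  obtain ⟨w₁, w₂, hw₁, hw₂, hw⟩ := common_dir φ₁ φ₂
  obtain ⟨b₁, hb₁⟩ := basis_with hw₁
  obtain ⟨b₂, hb₂⟩ := basis_with hw₂
  obtain ⟨e, he⟩ : ∃ e, e = φ₁.linearIsometry w₁ := ⟨_, rfl⟩
  have he2 : e = φ₂.linearIsometry w₂ := he.trans hw
  obtain ⟨e₁, he₁⟩ : ∃ e₁, e₁ = φ₁.linearIsometry (b₁ 0) := ⟨_, rfl⟩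
  obtain ⟨e₂, he₂⟩ : ∃ e₂, e₂ = φ₂.linearIsometry (b₂ 0) := ⟨_, rfl⟩
  have hO1 : Orth e₁ e := by
    have := orth_of_basis φ₁ b₁
    rwa [hb₁, ← he, ← he₁] at this
  have hO2 : Orth e₂ e := by
    have := orth_of_basis φ₂ b₂
    rwa [hb₂, ← he2, ← he₂] at this
  have har1 : ∀ y, ar D (φ₁ y) e₁ e = sigma D := by
    intro y
    rw [← h1, iso_frame φ₁ y b₁, hb₁, ← he, ← he₁]
  have har2 : ∀ y, ar D (φ₂ y) e₂ e = sigma D := by
    intro y
    rw [← h2, iso_frame φ₂ y b₂, hb₂, ← he2, ← he₂]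
  have hr1 : ∀ y (s t : ℝ), ∃ y', φ₁ y' = φ₁ y + s • e₁ + t • e := by
    intro y s t
    refine ⟨(s • b₁ 0 + t • b₁ 1) +ᵥ y, ?_⟩
    rw [φ₁.map_vadd, map_add, map_smul, map_smul, hb₁, ← he, ← he₁, vadd_eq_add]
    abel
  have hr2 : ∀ y (s t : ℝ), ∃ y', φ₂ y' = φ₂ y + s • e₂ + t • e := by
    intro y s t
    refine ⟨(s • b₂ 0 + t • b₂ 1) +ᵥ y, ?_⟩
    rw [φ₂.map_vadd, map_add, map_smul, map_smul, hb₂, ← he2, ← he₂, vadd_eq_add]
    abel
  have hce : |⟪e₁, e₂⟫_ℝ| ≤ 1 := by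
    have := abs_real_inner_le_norm e₁ e₂
    rwa [hO1.1, hO2.1, mul_one] at this
  have hce' := abs_le.1 hce
  by_cases hlt : ⟪e₁, e₂⟫_ℝ < 1 ∧ -1 < ⟪e₁, e₂⟫_ℝ
  · -- crossing planes
    obtain ⟨hlt1, hlt2⟩ := hlt
    obtain ⟨α, β, γ, hαβγ⟩ := expand hO1 hO2 hlt1 hlt2 (φ₂ 0 - φ₁ 0)
    obtain ⟨y₁, hy₁⟩ := hr1 0 α 0
    obtain ⟨y₂, hy₂⟩ := hr2 0 (-β) (-γ)
    have hy : φ₁ y₁ = φ₂ y₂ := by
      rw [hy₁, hy₂]
      have : φ₂ 0 = φ₁ 0 + (α • e₁ + β • e₂ + γ • e) := by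
        rw [hαβγ]
        abel
      rw [this, zero_smul, neg_smul, neg_smul]
      abel
    obtain ⟨O, hO⟩ : ∃ O, O = φ₁ y₁ := ⟨_, rfl⟩
    have hfib : ¬ (fib D e O).Nonempty := by
      rintro ⟨t, ht⟩
      obtain ⟨y, hy'⟩ := hr1 y₁ 0 t
      obtain ⟨y', hy''⟩ := hr2 y₂ 0 t
      rw [zero_smul, add_zero] at hy' hy''
      refine hcon _ ht ⟨y, ?_⟩ ⟨y', ?_⟩
      · rw [hy', hO]
      · rw [hy'', hO, hy]
    have hA1 : ar D O e₁ e = sigma D := hO ▸ har1 y₁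
    have hA2 : ar D O e₂ e = sigma D := by
      rw [hO, hy]
      exact har2 y₂
    obtain ⟨f₁, hf₁, p1, p2, p3⟩ := sign_choice hD hDc hO1 (by rw [hA1]; exact hpos) hfib
    obtain ⟨f₂, hf₂, q1, q2, q3⟩ := sign_choice hD hDc hO2 (by rw [hA2]; exact hpos) hfib
    have hlt' : ⟪f₁, f₂⟫_ℝ < 1 := by
      rcases hf₁ with h | h <;> rcases hf₂ with h' | h' <;> rw [h, h'] <;>
        (try simp only [inner_neg_left, inner_neg_right, neg_neg]) <;> linarith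
    exact cross_pos hD hDc p1 q1 hlt' hpos (p2.trans hA1) (q2.trans hA2) p3 q3
  · -- parallel planes
    have hcase : e₂ = e₁ ∨ e₂ = -e₁ := by
      by_cases h : ⟪e₁, e₂⟫_ℝ < 1
      · right
        have h3 : ⟪e₁, e₂⟫_ℝ = -1 := by
          by_contra h4
          exact hlt ⟨h, lt_of_le_of_ne hce'.1 (Ne.symm h4)⟩
        have h5 : ⟪e₁, -e₂⟫_ℝ = 1 := by rw [inner_neg_right, h3, neg_neg]
        have h6 := (inner_eq_one_iff_of_norm_eq_one hO1.1 (by rw [norm_neg]; exact hO2.1)).1 h5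
        rw [h6, neg_neg]
      · left
        have h3 : ⟪e₁, e₂⟫_ℝ = 1 := le_antisymm hce'.2 (not_lt.1 h)
        exact ((inner_eq_one_iff_of_norm_eq_one hO1.1 hO2.1).1 h3).symm
    have har2' : ∀ y, ar D (φ₂ y) e₁ e = sigma D := by
      intro y
      rcases hcase with h | h
      · rw [← h]
        exact har2 y
      · rw [← har2 y, h, ar_neg hD.isClosed]
    have hr2' : ∀ y (s t : ℝ), ∃ y', φ₂ y' = φ₂ y + s • e₁ + t • e := by
      intro y s t
      rcases hcase with h | h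
      · rw [← h]
        exact hr2 y s t
      · obtain ⟨y', hy'⟩ := hr2 y (-s) t
        refine ⟨y', ?_⟩
        rw [hy', h, smul_neg, neg_smul, neg_neg]
    obtain ⟨z, hz⟩ : ∃ z, z = (φ₂ 0 - φ₁ 0) - ⟪φ₂ 0 - φ₁ 0, e₁⟫_ℝ • e₁ - ⟪φ₂ 0 - φ₁ 0, e⟫_ℝ • e := ⟨_, rfl⟩
    obtain ⟨y₂, hy₂⟩ := hr2' 0 (-⟪φ₂ 0 - φ₁ 0, e₁⟫_ℝ) (-⟪φ₂ 0 - φ₁ 0, e⟫_ℝ)
    have hqz : φ₁ 0 + z = φ₂ y₂ := by
      rw [hy₂, hz, neg_smul, neg_smul]
      abel
    have hee1 : ⟪e, e₁⟫_ℝ = 0 := by rw [real_inner_comm]; exact hO1.2.2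
    have hze : ⟪z, e⟫_ℝ = 0 := by
      rw [hz, inner_sub_left, inner_sub_left, inner_smul_left, inner_smul_left, hO1.2.2,
        real_inner_self_eq_norm_sq, hO1.2.1]
      simp only [conj_trivial]
      ring
    have hzw : ⟪z, e₁⟫_ℝ = 0 := by
      rw [hz, inner_sub_left, inner_sub_left, inner_smul_left, inner_smul_left, hee1,
        real_inner_self_eq_norm_sq, hO1.1]
      simp only [conj_trivial]
      ring
    have hz0 : z ≠ 0 := by
      intro h0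
      rw [h0, add_zero] at hqz
      have h3 : (sec D (φ₁ 0) e₁ e).Nonempty := by
        by_contra h4
        rw [not_nonempty_iff_eq_empty] at h4
        have h5 : ar D (φ₁ 0) e₁ e = 0 := by
          show volume (sec D (φ₁ 0) e₁ e) = 0
          rw [h4, measure_empty]
        rw [har1 0] at h5
        exact hpos.ne' h5
      obtain ⟨p, hp⟩ := h3
      obtain ⟨y, hy⟩ := hr1 0 p.1 p.2
      obtain ⟨y', hy'⟩ := hr2' y₂ p.1 p.2
      refine hcon _ hp ⟨y, hy⟩ ⟨y', ?_⟩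
      rw [hy', hqz]
    refine par_case hD hDc hO1 hze hzw hz0 hpos (har1 0) ?_
    rw [hqz]
    exact har2' y₂

end Pool.Agent.MP_fa9df5_co
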