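import Pool.Agent.MP_fa9df5_co.HFun

/-!
Dissections by parallel and by radial cuts.
-/

set_option autoImplicit false

open MeasureTheory Set Filter Topology
open scoped ENNReal InnerProductSpace

namespace Pool.Agent.MP_fa9df5_co

/-- A dissection into three closed convex pieces of smaller maximal section. -/
def Good (D : Set E) : Prop := ∃ D₁ D₂ D₃ : Set E, (IsClosed D₁ ∧ IsClosed D₂ ∧ IsClosed D₃) ∧
  (Convex ℝ D₁ ∧ Convex ℝ D₂ ∧ Convex ℝ D₃) ∧ D₁ ∪ D₂ ∪ D₃ = D ∧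
  (Disjoint (interior D₁) (interior D₂) ∧ Disjoint (interior D₁) (interior D₃) ∧
    Disjoint (interior D₂) (interior D₃)) ∧
  (sigma D₁ < sigma D ∧ sigma D₂ < sigma D ∧ sigma D₃ < sigma D)

lemma interior_hyper {v : E} (hv : v ≠ 0) (t : ℝ) : interior {x : E | ⟪x, v⟫_ℝ = t} = ∅ := by
  rw [← not_nonempty_iff_eq_empty]
  rintro ⟨x, hx⟩
  rw [mem_interior_iff_mem_nhds] at hx
  have h1 : Tendsto (fun s : ℝ => x + s • v) (𝓝 0) (𝓝 (x + (0:ℝ) • v)) := by
    apply Continuous.tendsto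
    fun_prop
  rw [zero_smul, add_zero] at h1
  have h2 := h1 hx
  obtain ⟨ε, hε, hball⟩ := Metric.mem_nhds_iff.1 h2
  have h3 : ε / 2 ∈ Metric.ball (0:ℝ) ε := by
    rw [Metric.mem_ball, Real.dist_eq, sub_zero, abs_of_pos (by positivity)]
    linarith
  have h4 : (0:ℝ) ∈ Metric.ball (0:ℝ) ε := Metric.mem_ball_self hε
  have h5 : ⟪x + (ε/2) • v, v⟫_ℝ = t := hball h3
  have h6 : ⟪x + (0:ℝ) • v, v⟫_ℝ = t := hball h4
  rw [inner_add_left, inner_smul_left, real_inner_self_eq_norm_sq] at h5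
  rw [zero_smul, add_zero] at h6
  rw [h6] at h5
  have h7 : 0 < ‖v‖ := norm_pos_iff.2 hv
  have h8 : 0 < (ε/2) * ‖v‖^2 := by positivity
  simp only [conj_trivial] at h5
  linarith

lemma disj_int {A B : Set E} {v : E} (hv : v ≠ 0) {t : ℝ} (hA : ∀ x ∈ A, ⟪x, v⟫_ℝ ≤ t)
    (hB : ∀ x ∈ B, t ≤ ⟪x, v⟫_ℝ) : Disjoint (interior A) (interior B) := by
  rw [disjoint_iff_inter_eq_empty, ← interior_inter]
  have h1 : A ∩ B ⊆ {x : E | ⟪x, v⟫_ℝ = t} := fun x hx => le_antisymm (hA x hx.1) (hB x hx.2)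
  have h2 := interior_mono h1
  rw [interior_hyper hv] at h2
  exact subset_eq_empty h2 rfl

lemma two_case {D : Set E} (hD : IsCompact D) (hDc : Convex ℝ D) {v : E} {t : ℝ}
    (h1 : sigma (cut D v t) < sigma D) (h2 : sigma (cut D (-v) (-t)) < sigma D) : Good D := by
  have hv : v ≠ 0 := by
    intro h0
    rcases le_total 0 t with h | h
    · have : cut D v t = D := by
        apply inter_eq_left.2
        intro x _
        show ⟪x, v⟫_ℝ ≤ t
        rw [h0, inner_zero_right]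
        exact h
      rw [this] at h1
      exact lt_irrefl _ h1
    · have : cut D (-v) (-t) = D := by
        apply inter_eq_left.2
        intro x _
        show ⟪x, -v⟫_ℝ ≤ -t
        rw [h0, neg_zero, inner_zero_right]
        linarith
      rw [this] at h2
      exact lt_irrefl _ h2
  refine ⟨cut D v t, cut D (-v) (-t), ∅, ⟨(cut_compact hD _ _).isClosed, (cut_compact hD _ _).isClosed,
    isClosed_empty⟩, ⟨cut_convex hDc _ _, cut_convex hDc _ _, convex_empty⟩, ?_, ⟨?_, ?_, ?_⟩,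
    ⟨h1, h2, ?_⟩⟩
  · rw [union_empty]
    apply subset_antisymm
    · exact union_subset inter_subset_left inter_subset_left
    · intro x hx
      rcases le_total ⟪x, v⟫_ℝ t with h | h
      · exact Or.inl ⟨hx, h⟩
      · right
        refine ⟨hx, ?_⟩
        show ⟪x, -v⟫_ℝ ≤ -t
        rw [inner_neg_right]
        linarith
  · apply disj_int hv (t := t)
    · intro x hx
      exact hx.2
    · intro x hx
      have h3 : ⟪x, -v⟫_ℝ ≤ -t := hx.2
      rw [inner_neg_right] at h3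
      linarith
  · rw [interior_empty]
    exact disjoint_empty _
  · rw [interior_empty]
    exact disjoint_empty _
  · rw [sigma_empty]
    exact lt_of_le_of_lt zero_le h1

/-- Radial piece. -/
def wedge (D : Set E) (q a b c : E) : Set E :=
  D ∩ ({x | ⟪x - q, a - b⟫_ℝ ≤ 0} ∩ {x | ⟪x - q, a - c⟫_ℝ ≤ 0})

lemma half_closed (q a : E) : IsClosed {x : E | ⟪x - q, a⟫_ℝ ≤ 0} :=
  isClosed_le (by fun_prop) continuous_const

lemma half_convex (q a : E) : Convex ℝ {x : E | ⟪x - q, a⟫_ℝ ≤ 0} := by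
  have h : {x : E | ⟪x - q, a⟫_ℝ ≤ 0} = cut univ a ⟪q, a⟫_ℝ := by
    ext x
    simp only [cut, univ_inter, Set.mem_ofPred_eq, inner_sub_left, sub_nonpos]
  rw [h]
  exact cut_convex convex_univ _ _

lemma wedge_compact {D : Set E} (hD : IsCompact D) (q a b c : E) : IsCompact (wedge D q a b c) :=
  hD.inter_right ((half_closed q _).inter (half_closed q _))

lemma wedge_convex {D : Set E} (hD : Convex ℝ D) (q a b c : E) : Convex ℝ (wedge D q a b c) :=
  hD.inter ((half_convex q _).inter (half_convex q _))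

lemma wedge_disj (D : Set E) (q a b c d : E) (hab : a ≠ b) :
    Disjoint (interior (wedge D q a b c)) (interior (wedge D q b a d)) := by
  apply disj_int (sub_ne_zero.2 hab) (t := ⟪q, a - b⟫_ℝ)
  · intro x hx
    have h1 : ⟪x - q, a - b⟫_ℝ ≤ 0 := hx.2.1
    rw [inner_sub_left] at h1
    linarith
  · intro x hx
    have h1 : ⟪x - q, b - a⟫_ℝ ≤ 0 := hx.2.1
    have h2 : b - a = -(a - b) := by abel
    rw [h2, inner_neg_right, inner_sub_left] at h1
    linarith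

lemma wedge_swap (D : Set E) (q a b c : E) : wedge D q a b c = wedge D q a c b := by
  unfold wedge
  rw [inter_comm {x | ⟪x - q, a - b⟫_ℝ ≤ 0}]

lemma wedge_case {D : Set E} (hD : IsCompact D) (hDc : Convex ℝ D) {q a b c : E} (hab : a ≠ b)
    (hac : a ≠ c) (hbc : b ≠ c) (h1 : sigma (wedge D q a b c) < sigma D)
    (h2 : sigma (wedge D q b a c) < sigma D) (h3 : sigma (wedge D q c a b) < sigma D) : Good D := by
  refine ⟨wedge D q a b c, wedge D q b a c, wedge D q c a b, ⟨(wedge_compact hD _ _ _ _).isClosed,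
    (wedge_compact hD _ _ _ _).isClosed, (wedge_compact hD _ _ _ _).isClosed⟩,
    ⟨wedge_convex hDc _ _ _ _, wedge_convex hDc _ _ _ _, wedge_convex hDc _ _ _ _⟩, ?_,
    ⟨wedge_disj D q a b c c hab, ?_, ?_⟩, ⟨h1, h2, h3⟩⟩
  · apply subset_antisymm
    · exact union_subset (union_subset inter_subset_left inter_subset_left) inter_subset_left
    · intro x hx
      have e : ∀ y z : E, ⟪x - q, y - z⟫_ℝ ≤ 0 ↔ ⟪x - q, y⟫_ℝ ≤ ⟪x - q, z⟫_ℝ := by
        intro y z
        rw [inner_sub_right, sub_nonpos]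
      rcases le_total ⟪x - q, a⟫_ℝ ⟪x - q, b⟫_ℝ with h | h <;>
      rcases le_total ⟪x - q, a⟫_ℝ ⟪x - q, c⟫_ℝ with h' | h' <;>
      rcases le_total ⟪x - q, b⟫_ℝ ⟪x - q, c⟫_ℝ with h'' | h''
      · exact Or.inl (Or.inl ⟨hx, (e _ _).2 h, (e _ _).2 h'⟩)
      · exact Or.inl (Or.inl ⟨hx, (e _ _).2 h, (e _ _).2 h'⟩)
      · exact Or.inr ⟨hx, (e _ _).2 h', (e _ _).2 (h'.trans h)⟩
      · exact Or.inr ⟨hx, (e _ _).2 h', (e _ _).2 h''⟩
      · exact Or.inl (Or.inr ⟨hx, (e _ _).2 h, (e _ _).2 h''⟩)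
      · exact Or.inr ⟨hx, (e _ _).2 (h''.trans h), (e _ _).2 h''⟩
      · exact Or.inl (Or.inr ⟨hx, (e _ _).2 h, (e _ _).2 h''⟩)
      · exact Or.inr ⟨hx, (e _ _).2 h', (e _ _).2 h''⟩
  · rw [wedge_swap D q a b c]
    exact wedge_disj D q a c b b hac
  · rw [wedge_swap D q b a c, wedge_swap D q c a b]
    exact wedge_disj D q b c a a hbc

lemma wedge_sub_cut (D : Set E) (q a b c : E) (h : a + b + c = 0) :
    wedge D q a b c ⊆ cut D a ⟪q, a⟫_ℝ := by
  intro x hx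
  refine ⟨hx.1, ?_⟩
  have h1 : ⟪x - q, a - b⟫_ℝ ≤ 0 := hx.2.1
  have h2 : ⟪x - q, a - c⟫_ℝ ≤ 0 := hx.2.2
  rw [inner_sub_right] at h1 h2
  have h3 : ⟪x - q, a⟫_ℝ + ⟪x - q, b⟫_ℝ + ⟪x - q, c⟫_ℝ = 0 := by
    rw [← inner_add_right, ← inner_add_right, h, inner_zero_right]
  have h4 : ⟪x - q, a⟫_ℝ ≤ 0 := by linarith
  rw [inner_sub_left] at h4
  show ⟪x, a⟫_ℝ ≤ ⟪q, a⟫_ℝ
  linarith

/-- The case of a non linear threshold function. -/
lemma pos_case {D : Set E} (hD : IsCompact D) (hDc : Convex ℝ D) (hpos : 0 < sigma D)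
    (hodd : ∀ v, hf D (-v) = -hf D v) {a b c : E} (habc : a + b + c = 0)
    (hsum : 0 < hf D a + hf D b + hf D c) : Good D := by
  have hsm : ∀ (r : ℝ) (v : E), hf D (r • v) = r * hf D v := by
    intro r v
    rcases lt_trichotomy r 0 with h | h | h
    · have e : r • v = -((-r) • v) := by rw [neg_smul, neg_neg]
      rw [e, hodd, hf_smul hD hpos v (by linarith : 0 < -r)]
      ring
    · rw [h, zero_smul, zero_mul, hf_zero hD hpos]
    · exact hf_smul hD hpos v h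
  have hc : c = -(a + b) := by
    rw [← add_eq_zero_iff_eq_neg']
    exact habc
  have hdet : 0 < ‖a‖^2 * ‖b‖^2 - ⟪a, b⟫_ℝ^2 := by
    by_contra hcon
    push Not at hcon
    rcases eq_or_ne a 0 with h0 | h0
    · rw [hc, h0, zero_add, hodd, hf_zero hD hpos] at hsum
      linarith
    · have hn : 0 < ‖a‖^2 := by
        have := norm_pos_iff.2 h0
        positivity
      have hb : b = (⟪a, b⟫_ℝ / ‖a‖^2) • a := by
        rw [← sub_eq_zero, ← norm_eq_zero]
        have h1 : ‖b - (⟪a, b⟫_ℝ / ‖a‖^2) • a‖^2 ≤ 0 := by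
          rw [norm_sub_sq_real, inner_smul_right, norm_smul, real_inner_comm a b, mul_pow, Real.norm_eq_abs,
            sq_abs]
          have e : ‖b‖^2 - 2 * (⟪a, b⟫_ℝ / ‖a‖^2 * ⟪a, b⟫_ℝ) + (⟪a, b⟫_ℝ / ‖a‖^2)^2 * ‖a‖^2 =
              (‖a‖^2 * ‖b‖^2 - ⟪a, b⟫_ℝ^2) / ‖a‖^2 := by
            field_simp
            ring
          rw [e]
          exact div_nonpos_of_nonpos_of_nonneg hcon hn.le
        have h2 : 0 ≤ ‖b - (⟪a, b⟫_ℝ / ‖a‖^2) • a‖ := norm_nonneg _
        nlinarith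
      obtain ⟨r, hr⟩ : ∃ r, r = ⟪a, b⟫_ℝ / ‖a‖^2 := ⟨_, rfl⟩
      rw [← hr] at hb
      have hc' : c = (-(1 + r)) • a := by
        rw [hc, hb, neg_smul, add_smul, one_smul]
      rw [hc', hb, hsm, hsm] at hsum
      linarith
  obtain ⟨ε, hε⟩ : ∃ ε, ε = (hf D a + hf D b + hf D c) / 3 := ⟨_, rfl⟩
  have hε0 : 0 < ε := by rw [hε]; positivity
  obtain ⟨q, hq1, hq2⟩ : ∃ q : E, ⟪q, a⟫_ℝ = hf D a - ε ∧ ⟪q, b⟫_ℝ = hf D b - ε := by
    obtain ⟨Δ, hΔ⟩ : ∃ Δ, Δ = ‖a‖^2 * ‖b‖^2 - ⟪a, b⟫_ℝ^2 := ⟨_, rfl⟩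
    obtain ⟨x, hx⟩ : ∃ x, x = hf D a - ε := ⟨_, rfl⟩
    obtain ⟨y, hy⟩ : ∃ y, y = hf D b - ε := ⟨_, rfl⟩
    rw [← hΔ] at hdet
    rw [← hx, ← hy]
    refine ⟨((x * ‖b‖^2 - y * ⟪a, b⟫_ℝ) / Δ) • a + ((y * ‖a‖^2 - x * ⟪a, b⟫_ℝ) / Δ) • b, ?_, ?_⟩
    · rw [inner_add_left, inner_smul_left, inner_smul_left, real_inner_self_eq_norm_sq,
        real_inner_comm a b]
      simp only [conj_trivial]
      field_simp
      rw [hΔ]
      ring
    · rw [inner_add_left, inner_smul_left, inner_smul_left, real_inner_self_eq_norm_sq]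
      simp only [conj_trivial]
      field_simp
      rw [hΔ]
      ring
  have hq3 : ⟪q, c⟫_ℝ = hf D c - ε := by
    rw [hc, inner_neg_right, inner_add_right, hq1, hq2, ← hc, hε]
    ring
  have hlt : ∀ v : E, ⟪q, v⟫_ℝ = hf D v - ε → sigma (cut D v ⟪q, v⟫_ℝ) < sigma D := by
    intro v hv
    by_contra hcon
    have := (hf_iff hD hpos v _).2 (not_lt.1 hcon)
    linarith
  have hne : ∀ (x y : ℝ) , x • a = y • b → x = 0 ∧ y = 0 := by
    intro x y hxy
    have i1 : x * ‖a‖^2 = y * ⟪a, b⟫_ℝ := by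
      have := congrArg (fun z => ⟪z, a⟫_ℝ) hxy
      simp only [inner_smul_left] at this
      rw [real_inner_self_eq_norm_sq, real_inner_comm a b] at this
      exact this
    have i2 : x * ⟪a, b⟫_ℝ = y * ‖b‖^2 := by
      have := congrArg (fun z => ⟪z, b⟫_ℝ) hxy
      simp only [inner_smul_left] at this
      rw [real_inner_self_eq_norm_sq] at this
      exact this
    constructor
    · have : x * (‖a‖^2 * ‖b‖^2 - ⟪a, b⟫_ℝ^2) = 0 := by
        linear_combination ‖b‖^2 * i1 - ⟪a, b⟫_ℝ * i2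
      exact (mul_eq_zero.1 this).resolve_right hdet.ne'
    · have : y * (‖a‖^2 * ‖b‖^2 - ⟪a, b⟫_ℝ^2) = 0 := by
        linear_combination ⟪a, b⟫_ℝ * i1 - ‖a‖^2 * i2
      exact (mul_eq_zero.1 this).resolve_right hdet.ne'
  refine wedge_case hD hDc (q := q) (a := a) (b := b) (c := c) ?_ ?_ ?_ ?_ ?_ ?_
  · intro h
    have := (hne 1 1 (by rw [h])).1
    norm_num at this
  · intro h
    rw [hc] at h
    have := (hne 2 (-1) (by
      have h2 : (2:ℝ) • a = a + a := two_smul ℝ a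
      rw [h2]
      nth_rewrite 1 [h]
      rw [neg_smul, one_smul]
      abel)).1
    norm_num at this
  · intro h
    rw [hc] at h
    have := (hne (-1) 2 (by
      have h2 : (2:ℝ) • b = b + b := two_smul ℝ b
      rw [h2]
      nth_rewrite 2 [h]
      rw [neg_smul, one_smul]
      abel)).1
    norm_num at this
  · exact lt_of_le_of_lt (sigma_mono (wedge_sub_cut D q a b c habc)) (hlt a hq1)
  · exact lt_of_le_of_lt (sigma_mono (wedge_sub_cut D q b a c (by rw [← habc]; abel))) (hlt b hq2)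
  · exact lt_of_le_of_lt (sigma_mono (wedge_sub_cut D q c a b (by rw [← habc]; abel))) (hlt c hq3)

end Pool.Agent.MP_fa9df5_co
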