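import Pool.Agent.MP_fa9df5_co.Meyer2

/-!
Upper semicontinuity of the maximal section area and existence of maximal sections.
-/

set_option autoImplicit false

open MeasureTheory Set Filter Topology
open scoped ENNReal InnerProductSpace

namespace Pool.Agent.MP_fa9df5_co

lemma rebase {K : Set E} {q u v : E} (hpos : 0 < ar K q u v) :
    ∃ q' ∈ K, ar K q u v = ar K q' u v := by
  have h3 : (sec K q u v).Nonempty := by
    by_contra h4
    rw [not_nonempty_iff_eq_empty] at h4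
    have h5 : ar K q u v = 0 := by
      show volume (sec K q u v) = 0
      rw [h4, measure_empty]
    exact hpos.ne' h5
  obtain ⟨p, hp⟩ := h3
  refine ⟨q + p.1 • u + p.2 • v, hp, ?_⟩
  show volume (sec K q u v) = volume (sec K (q + p.1 • u + p.2 • v) u v)
  rw [← measure_preimage_add_right volume p (sec K q u v)]
  congr 1
  ext x
  show q + (x + p).1 • u + (x + p).2 • v ∈ K ↔ q + p.1 • u + p.2 • v + x.1 • u + x.2 • v ∈ K
  have e : q + (x + p).1 • u + (x + p).2 • v = q + p.1 • u + p.2 • v + x.1 • u + x.2 • v := by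
    simp only [Prod.fst_add, Prod.snd_add, add_smul]
    abel
  rw [e]

lemma limit_frame {K : ℕ → Set E} (hK : ∀ n, IsCompact (K n)) (hanti : Antitone K)
    {s : ℕ → ℝ≥0∞} {S : ℝ≥0∞} (hs : Tendsto s atTop (𝓝 S)) (hspos : ∀ n, 0 < s n)
    (hfr : ∀ n, ∃ q u v : E, Orth u v ∧ s n ≤ ar (K n) q u v) :
    ∃ q u v : E, Orth u v ∧ S ≤ ar (⋂ n, K n) q u v := by
  have hfr' : ∀ n, ∃ x : E × E × E, x.1 ∈ K n ∧ Orth x.2.1 x.2.2 ∧ s n ≤ ar (K n) x.1 x.2.1 x.2.2 := by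
    intro n
    obtain ⟨q, u, v, h1, h2⟩ := hfr n
    obtain ⟨q', hq', h3⟩ := rebase (lt_of_lt_of_le (hspos n) h2)
    exact ⟨(q', u, v), hq', h1, h3 ▸ h2⟩
  choose x hx1 hx2 hx3 using hfr'
  have hcpt : IsCompact ((K 0 ×ˢ (Metric.sphere (0 : E) 1 ×ˢ Metric.sphere (0 : E) 1)) ∩
      {x : E × E × E | ⟪x.2.1, x.2.2⟫_ℝ = 0}) := by
    apply IsCompact.inter_right
    · exact (hK 0).prod ((isCompact_sphere _ _).prod (isCompact_sphere _ _))
    · exact isClosed_eq (by fun_prop) continuous_const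
  have hmem : ∀ n, x n ∈ ((K 0 ×ˢ (Metric.sphere (0 : E) 1 ×ˢ Metric.sphere (0 : E) 1)) ∩
      {x : E × E × E | ⟪x.2.1, x.2.2⟫_ℝ = 0}) := by
    intro n
    refine ⟨⟨hanti (Nat.zero_le n) (hx1 n), ?_, ?_⟩, (hx2 n).2.2⟩
    · simpa using (hx2 n).1
    · simpa using (hx2 n).2.1
  obtain ⟨⟨q, u, v⟩, hquv, φ, hφ, hlim⟩ := hcpt.tendsto_subseq hmem
  have hu : ‖u‖ = 1 := by simpa using hquv.1.2.1
  have hv : ‖v‖ = 1 := by simpa using hquv.1.2.2
  have huv : ⟪u, v⟫_ℝ = 0 := hquv.2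
  have hl1 : Tendsto (fun k => (x (φ k)).1) atTop (𝓝 q) := (continuous_fst.tendsto _).comp hlim
  have hl2 : Tendsto (fun k => (x (φ k)).2.1) atTop (𝓝 u) :=
    ((continuous_fst.comp continuous_snd).tendsto _).comp hlim
  have hl3 : Tendsto (fun k => (x (φ k)).2.2) atTop (𝓝 v) :=
    ((continuous_snd.comp continuous_snd).tendsto _).comp hlim
  obtain ⟨R, hR⟩ := Metric.isBounded_iff.1 (hK 0).isBounded
  obtain ⟨A, hA⟩ : ∃ A : ℕ → Set (ℝ × ℝ), A = fun k => sec (K (φ k)) (x (φ k)).1 (x (φ k)).2.1 (x (φ k)).2.2 :=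
    ⟨_, rfl⟩
  have hAcl : ∀ k, IsClosed (A k) := by
    intro k
    rw [hA]
    exact sec_closed (hK _).isClosed _ _ _
  have hAb : ∀ k, A k ⊆ Metric.closedBall (0 : ℝ × ℝ) R := by
    intro k p hp
    rw [hA] at hp
    have h1 : (x (φ k)).1 + p.1 • (x (φ k)).2.1 + p.2 • (x (φ k)).2.2 ∈ K 0 :=
      hanti (Nat.zero_le _) hp
    have h2 : (x (φ k)).1 ∈ K 0 := hanti (Nat.zero_le _) (hx1 (φ k))
    have h3 := hR h1 h2
    rw [dist_eq_norm] at h3
    have h4 : (x (φ k)).1 + p.1 • (x (φ k)).2.1 + p.2 • (x (φ k)).2.2 - (x (φ k)).1 =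
        p.1 • (x (φ k)).2.1 + p.2 • (x (φ k)).2.2 := by abel
    rw [h4] at h3
    obtain ⟨c1, c2⟩ := coord_le (hx2 (φ k)) p.1 p.2
    rw [mem_closedBall_zero_iff, Prod.norm_def, Real.norm_eq_abs, Real.norm_eq_abs]
    exact max_le (c1.trans h3) (c2.trans h3)
  obtain ⟨B, hB⟩ : ∃ B : ℕ → Set (ℝ × ℝ), B = fun n => ⋃ k, ⋃ (_ : n ≤ k), A k := ⟨_, rfl⟩
  have hBm : ∀ n, MeasurableSet (B n) := by
    intro n
    rw [hB]
    exact MeasurableSet.iUnion (fun k => MeasurableSet.iUnion (fun _ => (hAcl k).measurableSet))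
  have hBanti : Antitone B := by
    intro n m hnm
    rw [hB]
    apply iUnion_mono
    intro k
    apply iUnion_subset
    intro hk
    exact subset_iUnion_of_subset (hnm.trans hk) (Subset.rfl)
  have hBfin : volume (B 0) ≠ ⊤ := by
    have h1 : B 0 ⊆ Metric.closedBall (0 : ℝ × ℝ) R := by
      rw [hB]
      exact iUnion_subset (fun k => iUnion_subset (fun _ => hAb k))
    exact ((measure_mono h1).trans_lt (isCompact_closedBall _ _).measure_lt_top).ne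
  have hlimB := tendsto_measure_iInter_atTop (μ := volume) (fun n => (hBm n).nullMeasurableSet)
    hBanti ⟨0, hBfin⟩
  have hsub : ⋂ n, B n ⊆ sec (⋂ n, K n) q u v := by
    intro p hp
    show q + p.1 • u + p.2 • v ∈ ⋂ n, K n
    rw [mem_iInter]
    intro N
    have hlimp : Tendsto (fun k => (x (φ k)).1 + p.1 • (x (φ k)).2.1 + p.2 • (x (φ k)).2.2) atTop
        (𝓝 (q + p.1 • u + p.2 • v)) := (hl1.add (hl2.const_smul p.1)).add (hl3.const_smul p.2)
    refine (hK N).isClosed.mem_of_frequently_of_tendsto ?_ hlimp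
    rw [frequently_atTop]
    intro n
    have h1 := mem_iInter.1 hp (max n N)
    rw [hB] at h1
    obtain ⟨k, hk, hkA⟩ := mem_iUnion₂.1 h1
    refine ⟨k, (le_max_left _ _).trans hk, ?_⟩
    rw [hA] at hkA
    have h2 : N ≤ φ k := ((le_max_right _ _).trans hk).trans (hφ.id_le k)
    exact hanti h2 hkA
  refine ⟨q, u, v, ⟨hu, hv, huv⟩, ?_⟩
  refine le_trans ?_ (measure_mono hsub)
  refine le_of_tendsto_of_tendsto (hs.comp hφ.tendsto_atTop) hlimB (Eventually.of_forall (fun k => ?_))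
  show s (φ k) ≤ volume (B k)
  refine (hx3 (φ k)).trans ?_
  apply measure_mono
  rw [hB, hA]
  exact subset_iUnion₂_of_subset k le_rfl Subset.rfl

lemma exists_basis : Nonempty (OrthonormalBasis (Fin 2) ℝ P) :=
  ⟨EuclideanSpace.basisFun (Fin 2) ℝ⟩

lemma frame_of_iso (φ : P →ᵃⁱ[ℝ] E) : ∃ q u v : E, Orth u v ∧ ∀ K, volume (φ ⁻¹' K) = ar K q u v :=
  ⟨φ 0, _, _, orth_of_basis φ (EuclideanSpace.basisFun (Fin 2) ℝ),
    fun K => iso_frame φ 0 (EuclideanSpace.basisFun (Fin 2) ℝ) K⟩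

lemma sigma_mono {K L : Set E} (h : K ⊆ L) : sigma K ≤ sigma L :=
  iSup_mono (fun _ => measure_mono (preimage_mono h))

lemma attained {K : Set E} (hK : IsCompact K) (hpos : 0 < sigma K) :
    ∃ φ : P →ᵃⁱ[ℝ] E, volume (φ ⁻¹' K) = sigma K := by
  obtain ⟨s, -, hs2, hs3⟩ := exists_seq_strictMono_tendsto' hpos
  obtain ⟨q, u, v, h1, h2⟩ := limit_frame (K := fun _ => K) (fun _ => hK) antitone_const hs3
    (fun n => (hs2 n).1) (fun n => by
      have h := (hs2 n).2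
      unfold sigma at h
      obtain ⟨φ, hφ⟩ := lt_iSup_iff.1 h
      obtain ⟨q, u, v, h3, h4⟩ := frame_of_iso φ
      exact ⟨q, u, v, h3, (h4 K) ▸ hφ.le⟩)
  rw [iInter_const] at h2
  obtain ⟨φ, -, hφ⟩ := frame_iso (q := q) h1
  refine ⟨φ, le_antisymm ?_ ?_⟩
  · exact le_iSup (fun φ : P →ᵃⁱ[ℝ] E => volume (φ ⁻¹' K)) φ
  · rw [hφ K]
    exact h2

lemma sigma_iInter {K : ℕ → Set E} (hK : ∀ n, IsCompact (K n)) (hanti : Antitone K) {S : ℝ≥0∞}
    (hS : 0 < S) (h : ∀ n, S ≤ sigma (K n)) : S ≤ sigma (⋂ n, K n) := by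
  obtain ⟨q, u, v, h1, h2⟩ := limit_frame hK hanti (tendsto_const_nhds (x := S)) (fun _ => hS)
    (fun n => by
      obtain ⟨φ, hφ⟩ := attained (hK n) (lt_of_lt_of_le hS (h n))
      obtain ⟨q, u, v, h3, h4⟩ := frame_of_iso φ
      refine ⟨q, u, v, h3, ?_⟩
      rw [← h4, hφ]
      exact h n)
  exact h2.trans (ar_le_sigma h1)

lemma sigma_ne_top {K : Set E} (hK : IsCompact K) : sigma K ≠ ⊤ := by
  rcases eq_or_ne (sigma K) 0 with h | h
  · rw [h]
    exact ENNReal.zero_ne_top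
  · obtain ⟨φ, hφ⟩ := attained hK (pos_iff_ne_zero.2 h)
    obtain ⟨q, u, v, h3, h4⟩ := frame_of_iso φ
    rw [← hφ, h4]
    exact (sec_compact hK h3).measure_lt_top.ne

end Pool.Agent.MP_fa9df5_co
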