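import Pool.Agent.MP_fa9df5_co.Main

/-!
Upgrading the dissection so that every piece has nonempty interior.
-/

set_option autoImplicit false

open MeasureTheory Set Filter Topology
open scoped ENNReal InnerProductSpace

namespace Pool.Agent.MP_fa9df5_co

/-- A dissection into three convex bodies of smaller maximal section. -/
def Best (D : Set E) : Prop := ∃ D₁ D₂ D₃ : Set E, (IsClosed D₁ ∧ IsClosed D₂ ∧ IsClosed D₃) ∧
  (Convex ℝ D₁ ∧ Convex ℝ D₂ ∧ Convex ℝ D₃) ∧
  ((interior D₁).Nonempty ∧ (interior D₂).Nonempty ∧ (interior D₃).Nonempty) ∧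
  D₁ ∪ D₂ ∪ D₃ = D ∧
  (Disjoint (interior D₁) (interior D₂) ∧ Disjoint (interior D₁) (interior D₃) ∧
    Disjoint (interior D₂) (interior D₃)) ∧
  (sigma D₁ < sigma D ∧ sigma D₂ < sigma D ∧ sigma D₃ < sigma D)

lemma drop {D A B : Set E} (hDc : Convex ℝ D) (hint : (interior D).Nonempty) (hA : IsClosed A)
    (hAB : A ∪ B = D) (hB : interior B = ∅) : A = D := by
  apply subset_antisymm
  · rw [← hAB]
    exact subset_union_left
  · have h1 : interior D ⊆ A := by
      intro x hx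
      by_contra hxA
      have hU : IsOpen (interior D ∩ Aᶜ) := isOpen_interior.inter hA.isOpen_compl
      have hUB : interior D ∩ Aᶜ ⊆ B := by
        rintro y ⟨hy1, hy2⟩
        have := interior_subset hy1
        rw [← hAB] at this
        exact this.resolve_left hy2
      have h2 := interior_maximal hUB hU
      rw [hB] at h2
      exact h2 ⟨hx, hxA⟩
    have h2 : closure (interior D) ⊆ A := closure_minimal h1 hA
    rw [hDc.closure_interior_eq_closure_of_nonempty_interior hint] at h2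
    exact subset_closure.trans h2

lemma two_to_three {D A B : Set E} (hA : IsClosed A) (hB : IsClosed B) (hAc : Convex ℝ A)
    (hBc : Convex ℝ B) (hAi : (interior A).Nonempty) (hBi : (interior B).Nonempty)
    (hAB : A ∪ B = D) (hdis : Disjoint (interior A) (interior B)) (h1 : sigma A < sigma D)
    (h2 : sigma B < sigma D) : Best D := by
  obtain ⟨x, hx⟩ := hAi
  obtain ⟨v, hv⟩ : ∃ v : E, v ≠ 0 := exists_ne 0
  have hclosed : ∀ (w : E) (t : ℝ), IsClosed (cut A w t) := by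
    intro w t
    exact hA.inter (isClosed_le (by fun_prop) continuous_const)
  have hx' : x ∈ interior (interior A) := by rwa [interior_interior]
  obtain ⟨ε, hε, h3, h4⟩ := small_step hx' v
  have hvv : 0 < ⟪v, v⟫_ℝ := by
    rw [real_inner_self_eq_norm_sq]
    have := norm_pos_iff.2 hv
    positivity
  refine ⟨cut A v ⟪x, v⟫_ℝ, cut A (-v) (-⟪x, v⟫_ℝ), B, ⟨hclosed _ _, hclosed _ _, hB⟩,
    ⟨cut_convex hAc _ _, cut_convex hAc _ _, hBc⟩, ⟨?_, ?_, hBi⟩, ?_, ⟨?_, ?_, ?_⟩, ⟨?_, ?_, h2⟩⟩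
  · have hU : IsOpen (interior A ∩ {y | ⟪y, v⟫_ℝ < ⟪x, v⟫_ℝ}) :=
      isOpen_interior.inter (isOpen_lt (by fun_prop) continuous_const)
    have hsub : interior A ∩ {y | ⟪y, v⟫_ℝ < ⟪x, v⟫_ℝ} ⊆ cut A v ⟪x, v⟫_ℝ :=
      fun y hy => ⟨interior_subset hy.1, (show ⟪y, v⟫_ℝ < ⟪x, v⟫_ℝ from hy.2).le⟩
    refine ⟨x - ε • v, interior_maximal hsub hU ⟨h4, ?_⟩⟩
    show ⟪x - ε • v, v⟫_ℝ < ⟪x, v⟫_ℝ
    rw [inner_sub_left, inner_smul_left]
    simp only [conj_trivial]
    have := mul_pos hε hvv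
    linarith
  · have hU : IsOpen (interior A ∩ {y | ⟪y, -v⟫_ℝ < -⟪x, v⟫_ℝ}) :=
      isOpen_interior.inter (isOpen_lt (by fun_prop) continuous_const)
    have hsub : interior A ∩ {y | ⟪y, -v⟫_ℝ < -⟪x, v⟫_ℝ} ⊆ cut A (-v) (-⟪x, v⟫_ℝ) :=
      fun y hy => ⟨interior_subset hy.1, (show ⟪y, -v⟫_ℝ < -⟪x, v⟫_ℝ from hy.2).le⟩
    refine ⟨x + ε • v, interior_maximal hsub hU ⟨h3, ?_⟩⟩
    show ⟪x + ε • v, -v⟫_ℝ < -⟪x, v⟫_ℝ
    rw [inner_neg_right, inner_add_left, inner_smul_left]
    simp only [conj_trivial]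
    have := mul_pos hε hvv
    linarith
  · rw [← hAB]
    congr 1
    apply subset_antisymm
    · exact union_subset inter_subset_left inter_subset_left
    · intro y hy
      rcases le_total ⟪y, v⟫_ℝ ⟪x, v⟫_ℝ with h | h
      · exact Or.inl ⟨hy, h⟩
      · right
        refine ⟨hy, ?_⟩
        show ⟪y, -v⟫_ℝ ≤ -⟪x, v⟫_ℝ
        rw [inner_neg_right]
        linarith
  · apply disj_int hv (t := ⟪x, v⟫_ℝ)
    · intro y hy
      exact hy.2
    · intro y hy
      have h5 : ⟪y, -v⟫_ℝ ≤ -⟪x, v⟫_ℝ := hy.2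
      rw [inner_neg_right] at h5
      linarith
  · exact hdis.mono_left (interior_mono inter_subset_left)
  · exact hdis.mono_left (interior_mono inter_subset_left)
  · exact lt_of_le_of_lt (sigma_mono inter_subset_left) h1
  · exact lt_of_le_of_lt (sigma_mono inter_subset_left) h1

lemma two_to_best {D A B : Set E} (hDc : Convex ℝ D) (hint : (interior D).Nonempty)
    (hA : IsClosed A) (hB : IsClosed B) (hAc : Convex ℝ A)
    (hBc : Convex ℝ B) (hAB : A ∪ B = D) (hdis : Disjoint (interior A) (interior B))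
    (h1 : sigma A < sigma D) (h2 : sigma B < sigma D) : Best D := by
  have hAi : (interior A).Nonempty := by
    by_contra hcon
    have := drop (A := B) (B := A) hDc hint hB (by rw [union_comm]; exact hAB)
      (not_nonempty_iff_eq_empty.1 hcon)
    rw [this] at h2
    exact lt_irrefl _ h2
  have hBi : (interior B).Nonempty := by
    by_contra hcon
    have := drop (A := A) (B := B) hDc hint hA hAB (not_nonempty_iff_eq_empty.1 hcon)
    rw [this] at h1
    exact lt_irrefl _ h1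
  exact two_to_three hA hB hAc hBc hAi hBi hAB hdis h1 h2

theorem best_of_good {D : Set E} (hDc : Convex ℝ D) (hint : (interior D).Nonempty) (h : Good D) :
    Best D := by
  obtain ⟨D₁, D₂, D₃, ⟨c1, c2, c3⟩, ⟨v1, v2, v3⟩, hu, ⟨d12, d13, d23⟩, ⟨s1, s2, s3⟩⟩ := h
  by_cases h3 : (interior D₃).Nonempty
  · by_cases h2 : (interior D₂).Nonempty
    · by_cases h1 : (interior D₁).Nonempty
      · exact ⟨D₁, D₂, D₃, ⟨c1, c2, c3⟩, ⟨v1, v2, v3⟩, ⟨h1, h2, h3⟩, hu, ⟨d12, d13, d23⟩, ⟨s1, s2, s3⟩⟩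
      · have hun : D₂ ∪ D₃ = D := by
          apply drop (A := D₂ ∪ D₃) (B := D₁) hDc hint (c2.union c3) _ (not_nonempty_iff_eq_empty.1 h1)
          rw [← hu, union_comm, union_assoc]
        exact two_to_best hDc hint c2 c3 v2 v3 hun d23 s2 s3
    · have hun : D₁ ∪ D₃ = D := by
        apply drop (A := D₁ ∪ D₃) (B := D₂) hDc hint (c1.union c3) _ (not_nonempty_iff_eq_empty.1 h2)
        rw [← hu, union_assoc, union_comm D₃, ← union_assoc]
      exact two_to_best hDc hint c1 c3 v1 v3 hun d13 s1 s3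
  · have hun : D₁ ∪ D₂ = D :=
      drop (A := D₁ ∪ D₂) (B := D₃) hDc hint (c1.union c2) hu (not_nonempty_iff_eq_empty.1 h3)
    exact two_to_best hDc hint c1 c2 v1 v2 hun d12 s1 s2

end Pool.Agent.MP_fa9df5_co
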